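import Pool.Agent.TH490.DPool

/-! The pool theorem: assembly. -/

set_option autoImplicit false
set_option linter.unusedSectionVars false
set_option linter.unusedSimpArgs false
set_option linter.unusedVariables false
set_option maxHeartbeats 1000000

namespace Pool.Agent.TH490

open Finset Classical

lemma aux_half {x R : ℕ} (h : ¬ 2 * x ≤ R) : 2 * R < 4 * x := by omega

lemma aux_size {x a b d R : ℕ} (h : x ≤ a + (b + d)) (h1 : 2 * a ≤ R) (h2 : 8 * b ≤ 2 * R)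
    (h3 : 8 * d ≤ 2 * R) : x ≤ R := by omega

lemma trip_mono {n r : ℕ} {P : Type} (G : SimpleGraph (Fin n)) (W : P → P → P → P → Prop)
    (f : Fin n × Fin r → P) {Z Z' : Finset (Fin n × Fin r)} (h : Z ⊆ Z') (u : Fin n × Fin r) :
    trip G W f Z' u ⊆ trip G W f Z u := by
  intro t ht
  simp only [trip, mem_filter, mem_univ, true_and] at ht ⊢
  obtain ⟨h1, h2, h3, h4⟩ := ht
  exact ⟨fun h' => h1 (h h'), fun h' => h2 (h h'), fun h' => h3 (h h'), h4⟩

theorem dpool_core (hG1 : G1_pos) (hP1 : P1_one) (hPb : P2_bad) (hPn : P2_near)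
    (hPd : P2_double) (hP3 : P3_two) (hP4 : P4_dev)
    {c c' C : ℝ} (hc0 : 0 < c) (hc0' : 0 < c')
    {N R n k D : ℕ} (G : SimpleGraph (Fin n))
    (hcop : ∀ y : Pos N,
      ((univ.filter (fun t : Pos N × Pos N × Pos N => Cop y t.1 t.2.1 t.2.2)).card : ℝ)
      ≤ c * (N : ℝ) ^ 6 * Real.log N)
    (htny : ∀ M : ℕ, 1 ≤ M → M ≤ N → ∀ y : Pos N,
      ((univ.filter (fun t : Pos N × Pos N × Pos N => Tny M y t.1 t.2.1 t.2.2)).card : ℝ)
      ≤ c' * (N : ℝ) ^ 6 * (1 + Real.log M))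
    (hC1 : 2 ^ 28 * 3276800 * 101 * c ≤ C) (hC2 : 2 ^ 45 * c' ≤ C)
    (hC3 : (20000 : ℝ) ^ 3 ≤ C)
    (hk : G.edgeFinset.card = k) (hk1 : 1 ≤ k)
    (hD : ∀ i : Fin n, (univ.filter (fun j : Fin n => j < i ∧ G.Adj i j)).card ≤ D)
    (hD2 : D ^ 2 ≤ 2 * k) (hCN : C * k * n ≤ (N : ℝ) ^ 3)
    (hCN2 : (N : ℝ) ^ 3 ≤ 2 * C * k * n)
    (hR100 : 2 ^ 100 ≤ R) (hRC : C * 64 ^ 3 ≤ R) (hRc : 256 * 101 ^ 2 * c ≤ R)
    (hRN : R ^ 100 ≤ N) (hNR : N < (R + 1) ^ 100)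
    (hnN : (n : ℝ) ≤ N * Real.log N)
    (hbad : ∑ f : Fin n × Fin (2 * R) → Pos N, ((Zg (R ^ 5) (R ^ 12) f).card : ℝ)
      ≤ (1 / 1024) * (n * (2 * R)) * ((N : ℝ) ^ 3) ^ (n * (2 * R)))
    (e1 : 16 * (n : ℝ) * (1 / 2) ^ R ≤ 1)
    (e2 : (32 : ℝ) * n ≤ 2 ^ (((2 * R : ℕ) : ℝ) / 4))
    (e3 : 16 * ((R : ℝ) + 1) ^ 900 * ((0.216 : ℝ) ^ ((1 : ℝ) / 40)) ^ R ≤ 1) :
    ∃ (M₀ : ℕ) (f : Fin n × Fin (2 * R) → Pos N) (Z : Finset (Fin n × Fin (2 * R))),
      PoolP G N R M₀ f Z := by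
  have hR1 : 1 ≤ R := le_trans (by norm_num) hR100
  have hN1 : 1 ≤ N := le_trans (Nat.one_le_pow _ _ hR1) hRN
  have hRR : (1 : ℝ) ≤ R := by exact_mod_cast hR1
  have hNpos : (0 : ℝ) < N := by exact_mod_cast hN1
  have hlogN : 0 ≤ Real.log N := Real.log_nonneg (by exact_mod_cast hN1)
  have hlogR : 0 ≤ Real.log R := Real.log_nonneg hRR
  have hlog : Real.log N ≤ 101 * Real.log R := log_le_aux hR100 hN1 hNR
  have hCpos : 0 < C := lt_of_lt_of_le (by norm_num) hC3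
  have hkR : (1 : ℝ) ≤ k := by exact_mod_cast hk1
  -- 2k ≤ n^2
  have hkn : 2 * k ≤ n * n := by
    have h1 : G.edgeFinset.card ≤ n.choose 2 := by
      have := G.card_edgeFinset_le_card_choose_two
      simpa using this
    rw [hk] at h1
    have h2 : n.choose 2 * 2 ≤ n * n := by
      rw [Nat.choose_two_right]
      have := Nat.div_mul_le_self (n * (n - 1)) 2
      exact this.trans (Nat.mul_le_mul_left _ (Nat.sub_le _ _))
    omega
  have hn1 : 1 ≤ n := by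
    rcases Nat.eq_zero_or_pos n with h | h
    · subst h; omega
    · exact h
  have hnpos : (0 : ℝ) < n := by exact_mod_cast hn1
  have hDn : D ≤ n := by
    have : D ^ 2 ≤ n ^ 2 := by
      calc D ^ 2 ≤ 2 * k := hD2
        _ ≤ n * n := hkn
        _ = n ^ 2 := (sq n).symm
    exact (Nat.pow_le_pow_iff_left (by norm_num)).1 this
  haveI hne : Nonempty (Pos N) := ⟨fun _ => ⟨0, hN1⟩⟩
  -- the threshold
  set M₀ : ℕ := ⌊20000 * (n : ℝ) / N⌋₊ + 1 with hM₀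
  have hM₀1 : 20000 * (n : ℝ) / N ≤ M₀ := by
    have := (Nat.lt_floor_add_one (20000 * (n : ℝ) / N)).le
    rw [hM₀]; push_cast; exact this
  have hM₀2 : (M₀ : ℝ) ≤ 20000 * (n : ℝ) / N + 1 := by
    rw [hM₀]; push_cast
    have := Nat.floor_le (div_nonneg (mul_nonneg (by norm_num) hnpos.le) hNpos.le :
      0 ≤ 20000 * (n : ℝ) / N)
    linarith
  have hM₀3 : 1 ≤ M₀ := by omega
  have hlogR2 : Real.log R ≤ R := (Real.log_le_sub_one_of_pos (by linarith)).trans (by linarith)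
  have hM₀4 : M₀ ≤ N := by
    have h1 : 20000 * (n : ℝ) / N ≤ 20000 * Real.log N := by
      rw [div_le_iff₀ hNpos]; linarith
    have h2 : (M₀ : ℝ) ≤ 2020000 * R + 1 := by linarith
    have h3 : (2020000 : ℝ) * R + 1 ≤ R * R := by
      have : (2 ^ 100 : ℝ) ≤ R := by exact_mod_cast hR100
      have h4 : (2020001 : ℝ) ≤ R := le_trans (by norm_num) this
      nlinarith only [h4, hRR]
    have h5 : R * R ≤ N := by
      rw [← sq]
      exact (Nat.pow_le_pow_right hR1 (by norm_num)).trans hRN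
    have h6 : (R : ℝ) * R ≤ N := by exact_mod_cast h5
    have h7 : (M₀ : ℝ) ≤ N := by linarith only [h2, h3, h6]
    exact_mod_cast h7
  -- the events
  have E1 := event1 (N := N) (R ^ 5) (R ^ 12) hbad hn1 hR1
  have E2 := event2 (N := N) hPb hPd (R ^ 5) (R ^ 12) e1
  have E3 := event3 (N := N) hPn hPd (R ^ 5) (R ^ 12) (Nat.one_le_pow _ _ hR1) hR1
    (n_large_aux hCpos hCN2 hkn hRN hRC hR1)
  have E4 := hP3 n (2 * R) (Pos N) G Cop (c * (N : ℝ) ^ 6 * Real.log N) D k hcop hD hk.le e2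
  have E5 := hP3 n (2 * R) (Pos N) G (Tny M₀) (c' * (N : ℝ) ^ 6 * (1 + Real.log M₀)) D k
    (htny M₀ hM₀3 hM₀4) hD hk.le e2
  have E6 := event6 hG1 hP4 hn1 hR1 hN1 hM₀1 e3 hNR
  have E7 := event7 (R := R) (n := n) hP1 hN1 hc0 hcop
    (cop4_aux hc0 hRR hlogN (by linarith only [hlog, hlogR2]) hnN (by exact_mod_cast hRN) hRc)
  rw [card_Pos] at E4 E5
  have hOm : (Fintype.card (Fin n × Fin (2 * R) → Pos N) : ℝ)
      = ((N : ℝ) ^ 3) ^ (n * (2 * R)) := by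
    rw [card_Om]; push_cast; rfl
  have E4' : (8 : ℝ) * ((univ.filter (fun f : Fin n × Fin (2 * R) → Pos N =>
      ¬ ∃ Z : Finset (Fin n × Fin (2 * R)),
        (∀ i, 8 * (univ.filter (fun s : Fin (2 * R) => (i, s) ∈ Z)).card ≤ 2 * R) ∧
        ∀ u, u ∉ Z → ((trip G Cop f Z u).card : ℝ)
          ≤ 2 ^ 25 * D * k * (c * (N : ℝ) ^ 6 * Real.log N) * ((2 * R : ℕ) : ℝ) ^ 3
            / ((N ^ 3 : ℕ) : ℝ) ^ 3)).card : ℝ)
      ≤ ((N : ℝ) ^ 3) ^ (n * (2 * R)) := by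
    exact_mod_cast E4
  have E5' : (8 : ℝ) * ((univ.filter (fun f : Fin n × Fin (2 * R) → Pos N =>
      ¬ ∃ Z : Finset (Fin n × Fin (2 * R)),
        (∀ i, 8 * (univ.filter (fun s : Fin (2 * R) => (i, s) ∈ Z)).card ≤ 2 * R) ∧
        ∀ u, u ∉ Z → ((trip G (Tny M₀) f Z u).card : ℝ)
          ≤ 2 ^ 25 * D * k * (c' * (N : ℝ) ^ 6 * (1 + Real.log M₀)) * ((2 * R : ℕ) : ℝ) ^ 3
            / ((N ^ 3 : ℕ) : ℝ) ^ 3)).card : ℝ)
      ≤ ((N : ℝ) ^ 3) ^ (n * (2 * R)) := by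
    exact_mod_cast E5
  have hOpos : 0 < ((N : ℝ) ^ 3) ^ (n * (2 * R)) := pow_pos (pow_pos hNpos 3) _
  obtain ⟨f, f1, f2, f3, f4, f5, f6, f7⟩ := exists_avoid _ _ _ _ _ _ _ _ hOpos hOm E1 E2 E3 E4'
    E5' E6 E7
  clear E1 E2 E3 E4 E5 E6 E7 E4' E5' hbad
  simp only [mem_filter, mem_univ, true_and, not_not] at f1 f2 f3 f4 f5 f6 f7
  obtain ⟨Z₁, hZ₁, hZ₁'⟩ := f4
  obtain ⟨Z₂, hZ₂, hZ₂'⟩ := f5
  refine ⟨M₀, f, Zg (R ^ 5) (R ^ 12) f ∪ Z₁ ∪ Z₂, ?_⟩
  have f2' : ∀ i, 2 * (univ.filter (fun s : Fin (2 * R) =>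
      (i, s) ∈ Zg (R ^ 5) (R ^ 12) f)).card ≤ R := by
    intro i
    by_contra hcon
    exact f2 ⟨le_of_not_gt f1, i, aux_half hcon⟩
  refine ⟨?_, ?_, ?_, ?_, ?_, ?_, ?_⟩
  · -- size
    intro i
    have h1 : (univ.filter (fun s : Fin (2 * R) =>
        (i, s) ∈ Zg (R ^ 5) (R ^ 12) f ∪ Z₁ ∪ Z₂)) ⊆
        (univ.filter (fun s : Fin (2 * R) => (i, s) ∈ Zg (R ^ 5) (R ^ 12) f)) ∪
        ((univ.filter (fun s : Fin (2 * R) => (i, s) ∈ Z₁)) ∪
        (univ.filter (fun s : Fin (2 * R) => (i, s) ∈ Z₂))) := by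
      intro s hs
      simp only [mem_filter, mem_univ, true_and, mem_union] at hs ⊢
      rcases hs with (h | h) | h
      · exact Or.inl h
      · exact Or.inr (Or.inl h)
      · exact Or.inr (Or.inr h)
    have h2 := (card_le_card h1).trans ((card_union_le _ _).trans
      (Nat.add_le_add_left (card_union_le _ _) _))
    exact aux_size h2 (f2' i) (hZ₁ i) (hZ₂ i)
  · -- geo
    intro x hx
    simp only [mem_union]
    exact Or.inl (Or.inl hx)
  · -- near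
    intro i t hit
    by_contra hcon
    push Not at hcon
    apply f3
    refine ⟨i, t, hit, lt_of_lt_of_le hcon (card_le_card ?_)⟩
    intro s hs
    simp only [mem_filter, mem_univ, true_and] at hs ⊢
    obtain ⟨s', hs'⟩ := hs
    refine ⟨s', nearf_mono (R ^ 5) ?_ f _ _ hs'⟩
    intro x hx
    simp only [mem_union]
    exact Or.inl (Or.inl hx)
  · -- cop4
    intro i τ hτ hcop4
    exact f7 ⟨i, τ, hτ, hcop4⟩
  · -- rich
    intro a ha hMa x y z hy hz hcol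
    by_contra hcon
    push Not at hcon
    apply f6
    refine ⟨x, y, z, hcol, ⟨a, ha, hMa, hy, hz⟩, lt_of_lt_of_le hcon
      (Nat.mul_le_mul_left _ (card_le_card ?_))⟩
    intro w hw
    simp only [mem_filter, mem_univ, true_and] at hw ⊢
    exact cop_iff_plane hy hz hcol (f w) hw ha.ne_zero
  · -- deg
    intro u hu
    have hu1 : u ∉ Z₁ := fun h => hu (by simp only [mem_union]; exact Or.inl (Or.inr h))
    have h1 := hZ₁' u hu1
    have h2 : (trip G Cop f (Zg (R ^ 5) (R ^ 12) f ∪ Z₁ ∪ Z₂) u).card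
        ≤ (trip G Cop f Z₁ u).card := by
      refine card_le_card (trip_mono G Cop f ?_ u)
      intro x hx
      simp only [mem_union]
      exact Or.inl (Or.inr hx)
    have h3 : ((trip G Cop f (Zg (R ^ 5) (R ^ 12) f ∪ Z₁ ∪ Z₂) u).card : ℝ)
        ≤ (trip G Cop f Z₁ u).card := by exact_mod_cast h2
    refine h3.trans (h1.trans ?_)
    have h4 := num_cop (c := c) (C := C) (n := n) (k := k) (N := N) (R := R) (D := D)
      (L := Real.log R) hc0 hNpos (by linarith only [hRR]) (by linarith only [hkR]) hnpos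
      (Nat.cast_nonneg _) (by exact_mod_cast hDn) hC1 hCN hlogR hlogN hlog
    refine le_trans (le_of_eq ?_) h4
    push_cast
    rfl
  · -- tiny
    intro u hu
    have hu1 : u ∉ Z₂ := fun h => hu (by simp only [mem_union]; exact Or.inr h)
    have h1 := hZ₂' u hu1
    have h2 : (trip G (Tny M₀) f (Zg (R ^ 5) (R ^ 12) f ∪ Z₁ ∪ Z₂) u).card
        ≤ (trip G (Tny M₀) f Z₂ u).card := by
      refine card_le_card (trip_mono G (Tny M₀) f ?_ u)
      intro x hx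
      simp only [mem_union]
      exact Or.inr hx
    have h3 : ((trip G (Tny M₀) f (Zg (R ^ 5) (R ^ 12) f ∪ Z₁ ∪ Z₂) u).card : ℝ)
        ≤ (trip G (Tny M₀) f Z₂ u).card := by exact_mod_cast h2
    refine h3.trans (h1.trans ?_)
    have h4 := num_tiny (c := c') (C := C) (n := n) (k := k) (N := N) (R := R) (D := D)
      (M₀ := M₀) hc0' hNpos (by linarith only [hRR]) hkR hnpos
      (Nat.cast_nonneg _) (by exact_mod_cast hD2) hC2 hC3
      (by have : (2 : ℝ) * k ≤ n * n := by exact_mod_cast hkn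
          nlinarith only [this]) (by exact_mod_cast hM₀3) hCN hM₀2
    refine le_trans (le_of_eq ?_) h4
    push_cast
    rfl

theorem dpool : G1_pos → G3_cop → G3_tiny → P1_one → P2_bad → P2_near → P2_double → P3_two →
    P4_dev → D_badgeo → D_pool := by
  intro hG1 hG3 hG3t hP1 hPb hPn hPd hP3 hP4 hDB
  obtain ⟨c, hc0, hc⟩ := hG3
  obtain ⟨c', hc0', hc'⟩ := hG3t
  obtain ⟨N₀, hN₀⟩ := hDB
  refine ⟨max (max (2 ^ 28 * 3276800 * 101 * c) (2 ^ 45 * c')) ((20000 : ℝ) ^ 3),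
    lt_of_lt_of_le (by norm_num) (le_max_right _ _), ?_⟩
  intro C hC R₀
  have hC1 : 2 ^ 28 * 3276800 * 101 * c ≤ C :=
    le_trans (le_trans (le_max_left _ _) (le_max_left _ _)) hC
  have hC2 : 2 ^ 45 * c' ≤ C := le_trans (le_trans (le_max_right _ _) (le_max_left _ _)) hC
  have hC3 : (20000 : ℝ) ^ 3 ≤ C := le_trans (le_max_right _ _) hC
  obtain ⟨Ra, hRa⟩ := ev_exp 200 (1 / 2) 16 (by norm_num) (by norm_num)
  obtain ⟨Rb, hRb⟩ := ev_exp 200 (2 ^ (-(1 / 2) : ℝ)) 32 (by positivity)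
    (Real.rpow_lt_one_of_one_lt_of_neg (by norm_num) (by norm_num))
  obtain ⟨Rc, hRc⟩ := ev_exp 900 ((0.216 : ℝ) ^ ((1 : ℝ) / 40)) 16 (by positivity)
    (Real.rpow_lt_one (by norm_num) (by norm_num) (by norm_num))
  obtain ⟨Rd, hRd⟩ := exists_nat_ge (C * 64 ^ 3)
  obtain ⟨Re, hRe⟩ := exists_nat_ge (256 * 101 ^ 2 * c)
  set R₁ : ℕ := R₀ + Ra + Rb + Rc + Rd + Re + 2 ^ 100 with hR₁
  refine ⟨R₁ ^ 100 + N₀ + 2, ?_⟩
  intro N hN n G k D hk hk1 hn2k hD hD2 hCN hCN2 hnk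
  obtain ⟨R, hR, hR'⟩ := exists_root N
  have hRR₁ : R₁ ≤ R := root_large (le_trans (by omega) hN) hR'
  have hR100 : 2 ^ 100 ≤ R := le_trans (by omega) hRR₁
  have hR1 : 1 ≤ R := le_trans (by norm_num) hR100
  have hN1 : 1 ≤ N := by omega
  have hNpos : (0 : ℝ) < N := by exact_mod_cast hN1
  have hlogN : 0 ≤ Real.log N := Real.log_nonneg (by exact_mod_cast hN1)
  have hkR : (1 : ℝ) ≤ k := by exact_mod_cast hk1
  have hn1 : 1 ≤ n := by
    rcases Nat.eq_zero_or_pos n with h | h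
    · subst h
      exfalso
      have : G.edgeFinset = ∅ := by
        ext e
        induction e using Sym2.ind with
        | _ a b => exact a.elim0
      rw [this] at hk
      simp at hk
      omega
    · exact h
  have hnpos : (0 : ℝ) < n := by exact_mod_cast hn1
  have hnN : (n : ℝ) ≤ N * Real.log N :=
    n_le (le_trans (by norm_num) hC3) hnpos (by linarith) hNpos hlogN hCN hnk
  have hnN2 : (n : ℝ) ≤ (N : ℝ) ^ 2 := by
    refine hnN.trans ?_
    rw [sq]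
    refine mul_le_mul_of_nonneg_left ?_ hNpos.le
    have := Real.log_le_sub_one_of_pos hNpos
    linarith
  have hN2 := nat_pow_aux hR'
  refine ⟨R, le_trans (by omega) hRR₁, hR, hR', ?_⟩
  refine dpool_core hG1 hP1 hPb hPn hPd hP3 hP4 (C := C) hc0 hc0' (D := D) (k := k) G
    (hc N (by omega)) (hc' N hN1) hC1 hC2 hC3 hk hk1 hD hD2 hCN hCN2 hR100 ?_ ?_ hR hR' hnN
    (hN₀ N (by omega) R hR hR' n hn1 hnN) ?_ ?_ ?_
  · refine hRd.trans ?_
    have : Rd ≤ R := le_trans (by omega) hRR₁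
    exact_mod_cast this
  · refine hRe.trans ?_
    have : Re ≤ R := le_trans (by omega) hRR₁
    exact_mod_cast this
  · exact exp_aux1 (by norm_num) (pow_nonneg (by norm_num) _) hnN2 hN2
      (hRa R (le_trans (by omega) hRR₁))
  · exact half_pow_aux (exp_aux1 (by norm_num) (pow_nonneg (by positivity) _) hnN2 hN2
      (hRb R (le_trans (by omega) hRR₁)))
  · exact hRc R (le_trans (by omega) hRR₁)

end Pool.Agent.TH490
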