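import Mathlib

/-! Numerical lemmas for the pool theorem. -/

set_option autoImplicit false

namespace Pool.Agent.TH490

/-- bound for the number of conflicts -/
lemma num_cop {c C n k N R D L : ℝ} (hc : 0 < c) (hN : 0 < N) (hR : 0 ≤ R) (hk : 0 ≤ k)
    (hn : 0 < n) (hD0 : 0 ≤ D) (hD : D ≤ n) (hC : 2 ^ 28 * 3276800 * 101 * c ≤ C)
    (hCN : C * k * n ≤ N ^ 3) (hL : 0 ≤ L) {lN : ℝ} (hlN0 : 0 ≤ lN) (hlN : lN ≤ 101 * L) :
    2 ^ 25 * D * k * (c * N ^ 6 * lN) * (2 * R) ^ 3 / (N ^ 3) ^ 3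
      ≤ (1 / 3276800) * R ^ 3 * L := by
  rw [div_le_iff₀ (by positivity)]
  have h1 : D * k ≤ n * k := mul_le_mul_of_nonneg_right hD hk
  have h2 : 2 ^ 28 * 3276800 * 101 * c * (k * n) ≤ N ^ 3 := by
    refine le_trans ?_ hCN
    have := mul_le_mul_of_nonneg_right hC (by positivity : (0 : ℝ) ≤ k * n)
    linarith
  have h3 : 2 ^ 28 * c * (D * k) * lN * 3276800 ≤ N ^ 3 * L := by
    calc 2 ^ 28 * c * (D * k) * lN * 3276800
        ≤ 2 ^ 28 * c * (n * k) * (101 * L) * 3276800 := by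
          refine mul_le_mul_of_nonneg_right ?_ (by norm_num)
          refine mul_le_mul ?_ hlN hlN0 (by positivity)
          exact mul_le_mul_of_nonneg_left h1 (by positivity)
      _ = (2 ^ 28 * 3276800 * 101 * c * (k * n)) * L := by ring
      _ ≤ N ^ 3 * L := mul_le_mul_of_nonneg_right h2 hL
  have h4 : 2 ^ 25 * D * k * (c * N ^ 6 * lN) * (2 * R) ^ 3
      = (2 ^ 28 * c * (D * k) * lN * 3276800) * (N ^ 6 * R ^ 3 / 3276800) := by ring
  have h5 : 1 / 3276800 * R ^ 3 * L * (N ^ 3) ^ 3 = (N ^ 3 * L) * (N ^ 6 * R ^ 3 / 3276800) := by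
    ring
  rw [h4, h5]
  exact mul_le_mul_of_nonneg_right h3 (by positivity)

/-- bound for the number of conflicts in tiny planes -/
lemma num_tiny {c C n k N R D M₀ : ℝ} (hc : 0 < c) (hN : 0 < N) (hR : 0 ≤ R) (hk : 1 ≤ k)
    (hn : 0 < n) (hD0 : 0 ≤ D) (hD : D ^ 2 ≤ 2 * k) (hC : 2 ^ 45 * c ≤ C)
    (hC2 : 20000 ^ 3 ≤ C) (hkn : 2 * k ≤ n ^ 2) (hM1 : 1 ≤ M₀)
    (hCN : C * k * n ≤ N ^ 3) (hM₀ : M₀ ≤ 20000 * n / N + 1) :
    2 ^ 25 * D * k * (c * N ^ 6 * (1 + Real.log M₀)) * (2 * R) ^ 3 / (N ^ 3) ^ 3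
      ≤ (1 / 32768) * R ^ 3 := by
  set z : ℝ := 20000 * n / N with hz
  have hz0 : 0 ≤ z := by positivity
  have hz3 : z ^ 3 * k ≤ n ^ 2 := by
    have h1 : z ^ 3 * N ^ 3 = 20000 ^ 3 * n ^ 3 := by
      rw [hz, div_pow, mul_pow]
      field_simp
    have h2 : z ^ 3 * (C * k * n) ≤ C * n ^ 3 := by
      calc z ^ 3 * (C * k * n) ≤ z ^ 3 * N ^ 3 := mul_le_mul_of_nonneg_left hCN (by positivity)
        _ = 20000 ^ 3 * n ^ 3 := h1
        _ ≤ C * n ^ 3 := mul_le_mul_of_nonneg_right hC2 (by positivity)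
    have hCpos : 0 < C := lt_of_lt_of_le (by norm_num) hC2
    have h3 : (z ^ 3 * k) * (C * n) ≤ n ^ 2 * (C * n) := by nlinarith
    exact le_of_mul_le_mul_right h3 (by positivity)
  have hlog : 1 + Real.log M₀ ≤ 1 + z := by
    have := Real.log_le_sub_one_of_pos (by linarith : (0 : ℝ) < M₀)
    linarith
  have hlog0 : 0 ≤ 1 + Real.log M₀ := by
    have := Real.log_nonneg hM1
    linarith
  have hDz : D * (1 + z) ≤ 3 * n := by
    have h1 : (D * (1 + z)) ^ 2 ≤ (3 * n) ^ 2 := by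
      have h2 : (1 + z) ^ 2 * (2 * k) ≤ 9 * n ^ 2 := by
        rcases le_total z 1 with h | h
        · have : (1 + z) ^ 2 ≤ 4 := by nlinarith
          nlinarith
        · have h4 : (1 + z) ^ 2 ≤ 4 * z ^ 3 := by
            nlinarith [mul_nonneg hz0 hz0, mul_nonneg (mul_nonneg hz0 hz0) (by linarith : 0 ≤ z - 1)]
          nlinarith
      calc (D * (1 + z)) ^ 2 = D ^ 2 * (1 + z) ^ 2 := by ring
        _ ≤ (2 * k) * (1 + z) ^ 2 := mul_le_mul_of_nonneg_right hD (by positivity)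
        _ ≤ (3 * n) ^ 2 := by nlinarith
    exact le_of_sq_le_sq h1 (by positivity)
  rw [div_le_iff₀ (by positivity)]
  have h5 : 2 ^ 28 * 32768 * c * (D * k * (1 + Real.log M₀)) ≤ N ^ 3 := by
    calc 2 ^ 28 * 32768 * c * (D * k * (1 + Real.log M₀))
        ≤ 2 ^ 28 * 32768 * c * (k * (D * (1 + z))) := by
          refine mul_le_mul_of_nonneg_left ?_ (by positivity)
          have := mul_le_mul_of_nonneg_left hlog (by positivity : (0 : ℝ) ≤ D * k)
          linarith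
      _ ≤ 2 ^ 28 * 32768 * c * (k * (3 * n)) := by
          refine mul_le_mul_of_nonneg_left ?_ (by positivity)
          exact mul_le_mul_of_nonneg_left hDz (by linarith)
      _ ≤ (2 ^ 45 * c) * (k * n) := by
          have : 0 ≤ c * (k * n) := by positivity
          nlinarith
      _ ≤ C * (k * n) := mul_le_mul_of_nonneg_right hC (by positivity)
      _ ≤ N ^ 3 := by linarith
  have h4 : 2 ^ 25 * D * k * (c * N ^ 6 * (1 + Real.log M₀)) * (2 * R) ^ 3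
      = (2 ^ 28 * 32768 * c * (D * k * (1 + Real.log M₀))) * (N ^ 6 * R ^ 3 / 32768) := by ring
  have h6 : 1 / 32768 * R ^ 3 * (N ^ 3) ^ 3 = N ^ 3 * (N ^ 6 * R ^ 3 / 32768) := by ring
  rw [h4, h6]
  exact mul_le_mul_of_nonneg_right h5 (by positivity)

/-- `n ≤ N log N` -/
lemma n_le {C n k N : ℝ} (hC : 1 ≤ C) (hn : 0 < n) (hk : 0 ≤ k) (hN : 0 < N)
    (hl : 0 ≤ Real.log N) (hCN : C * k * n ≤ N ^ 3) (h : n ^ 2 ≤ k * Real.log N ^ 3) :
    n ≤ N * Real.log N := by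
  have h1 : n ^ 3 ≤ (N * Real.log N) ^ 3 := by
    calc n ^ 3 = n ^ 2 * n := by ring
      _ ≤ (k * Real.log N ^ 3) * n := mul_le_mul_of_nonneg_right h hn.le
      _ = (k * n) * Real.log N ^ 3 := by ring
      _ ≤ N ^ 3 * Real.log N ^ 3 := by
          refine mul_le_mul_of_nonneg_right ?_ (by positivity)
          nlinarith [mul_nonneg hk hn.le]
      _ = _ := by ring
  exact le_of_pow_le_pow_left₀ (by norm_num) (by positivity) h1

end Pool.Agent.TH490
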