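import Pool.Agent.TH490.DPoolC
import Pool.Agent.TH490.DPoolN

/-! The pool theorem. -/

set_option autoImplicit false
set_option linter.unusedSectionVars false
set_option linter.unusedSimpArgs false
set_option linter.unusedVariables false
set_option maxHeartbeats 1000000

namespace Pool.Agent.TH490

open Finset Classical

/-- seven sets of total proportion less than one -/
lemma exists_avoid {Ω : Type} [Fintype Ω] (B1 B2 B3 B4 B5 B6 B7 : Finset Ω) (O : ℝ) (hO : 0 < O)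
    (hc : (Fintype.card Ω : ℝ) = O)
    (h1 : 16 * (B1.card : ℝ) ≤ O) (h2 : 16 * (B2.card : ℝ) ≤ O) (h3 : 32 * (B3.card : ℝ) ≤ O)
    (h4 : 8 * (B4.card : ℝ) ≤ O) (h5 : 8 * (B5.card : ℝ) ≤ O) (h6 : 16 * (B6.card : ℝ) ≤ O)
    (h7 : 16 * (B7.card : ℝ) ≤ O) :
    ∃ f : Ω, f ∉ B1 ∧ f ∉ B2 ∧ f ∉ B3 ∧ f ∉ B4 ∧ f ∉ B5 ∧ f ∉ B6 ∧ f ∉ B7 := by
  by_contra hcon
  push Not at hcon
  have hsub : (univ : Finset Ω) ⊆ B1 ∪ (B2 ∪ (B3 ∪ (B4 ∪ (B5 ∪ (B6 ∪ B7))))) := by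
    intro f _
    simp only [mem_union]
    by_contra hf
    push Not at hf
    obtain ⟨a1, a2, a3, a4, a5, a6, a7⟩ := hf
    exact a7 (hcon f a1 a2 a3 a4 a5 a6)
  have hcard : Fintype.card Ω ≤ B1.card + (B2.card + (B3.card + (B4.card + (B5.card +
      (B6.card + B7.card))))) := by
    rw [← card_univ]
    refine (card_le_card hsub).trans ?_
    refine (card_union_le _ _).trans (Nat.add_le_add_left ?_ _)
    refine (card_union_le _ _).trans (Nat.add_le_add_left ?_ _)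
    refine (card_union_le _ _).trans (Nat.add_le_add_left ?_ _)
    refine (card_union_le _ _).trans (Nat.add_le_add_left ?_ _)
    refine (card_union_le _ _).trans (Nat.add_le_add_left ?_ _)
    exact card_union_le _ _
  have hcard' : (Fintype.card Ω : ℝ) ≤ B1.card + (B2.card + (B3.card + (B4.card + (B5.card +
      (B6.card + B7.card))))) := by exact_mod_cast hcard
  rw [hc] at hcard'
  linarith

lemma log_le_aux {N R : ℕ} (hR : 2 ^ 100 ≤ R) (hN : 1 ≤ N) (h : N < (R + 1) ^ 100) :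
    Real.log N ≤ 101 * Real.log R := by
  have hR1 : (1 : ℝ) ≤ R := by
    have : 1 ≤ R := le_trans (by norm_num) hR
    exact_mod_cast this
  have h1 : (N : ℝ) ≤ (R : ℝ) ^ 101 := by
    have h2 : (N : ℝ) ≤ ((R : ℝ) + 1) ^ 100 := by exact_mod_cast h.le
    refine h2.trans ?_
    have h3 : ((R : ℝ) + 1) ^ 100 ≤ (2 * R) ^ 100 :=
      pow_le_pow_left₀ (by positivity) (by linarith) _
    refine h3.trans ?_
    rw [mul_pow, pow_succ (R : ℝ) 100, mul_comm]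
    refine mul_le_mul_of_nonneg_left ?_ (by positivity)
    exact_mod_cast hR
  have hNpos : (0 : ℝ) < N := by exact_mod_cast hN
  calc Real.log N ≤ Real.log ((R : ℝ) ^ 101) := Real.log_le_log hNpos h1
    _ = 101 * Real.log R := by rw [Real.log_pow]; norm_num

lemma nat_pow_aux {N R : ℕ} (h : N < (R + 1) ^ 100) :
    (N : ℝ) ^ 2 ≤ ((R : ℝ) + 1) ^ 200 := by
  have h3 : (N : ℝ) ≤ ((R : ℝ) + 1) ^ 100 := by exact_mod_cast h.le
  have h4 := pow_le_pow_left₀ (Nat.cast_nonneg N) h3 2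
  rw [← pow_mul] at h4
  exact h4

lemma exp_aux1 {A n N2 B r : ℝ} (hA : 0 ≤ A) (hr : 0 ≤ r) (h1 : n ≤ N2) (h2 : N2 ≤ B)
    (h3 : A * B * r ≤ 1) : A * n * r ≤ 1 := by
  refine le_trans ?_ h3
  exact mul_le_mul_of_nonneg_right (mul_le_mul_of_nonneg_left (h1.trans h2) hA) hr

lemma half_pow_aux {n : ℝ} {R : ℕ} (h : 32 * n * (2 ^ (-(1 / 2) : ℝ)) ^ R ≤ 1) :
    (32 : ℝ) * n ≤ 2 ^ (((2 * R : ℕ) : ℝ) / 4) := by
  have e1 : (((2 * R : ℕ) : ℝ) / 4) = (1 / 2) * (R : ℝ) := by push_cast; ring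
  rw [e1, Real.rpow_mul (by norm_num), Real.rpow_natCast]
  rw [Real.rpow_neg (by norm_num), inv_pow] at h
  have hpos : (0 : ℝ) < (2 ^ (1 / 2 : ℝ)) ^ R := by positivity
  rw [← div_eq_mul_inv, div_le_one hpos] at h
  exact h

lemma n_large_aux {C : ℝ} {n k N R : ℕ} (hC0 : 0 < C) (h1 : (N : ℝ) ^ 3 ≤ 2 * C * k * n)
    (h2 : 2 * k ≤ n * n) (hR : R ^ 100 ≤ N) (hRC : C * 64 ^ 3 ≤ R) (hR1 : 1 ≤ R) :
    (4 * (R ^ 12 * R ^ 12) * (2 * R)) ^ 2 ≤ n := by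
  by_contra hcon
  push Not at hcon
  have e1 : (4 * (R ^ 12 * R ^ 12) * (2 * R)) ^ 2 = 64 * R ^ 50 := by ring
  rw [e1] at hcon
  have hcon' : (n : ℝ) < 64 * (R : ℝ) ^ 50 := by exact_mod_cast hcon
  have h2' : (2 : ℝ) * k ≤ (n : ℝ) ^ 2 := by
    have : (2 : ℝ) * k ≤ n * n := by exact_mod_cast h2
    linarith [sq (n : ℝ)]
  have hR' : ((R : ℝ)) ^ 100 ≤ N := by exact_mod_cast hR
  have hR1' : (1 : ℝ) ≤ R := by exact_mod_cast hR1
  have h3 : (N : ℝ) ^ 3 ≤ C * (n : ℝ) ^ 3 := by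
    calc (N : ℝ) ^ 3 ≤ 2 * C * k * n := h1
      _ = C * n * (2 * k) := by ring
      _ ≤ C * n * (n : ℝ) ^ 2 := mul_le_mul_of_nonneg_left h2' (by positivity)
      _ = _ := by ring
  have h4 : (n : ℝ) ^ 3 < (64 * (R : ℝ) ^ 50) ^ 3 :=
    pow_lt_pow_left₀ hcon' (by positivity) (by norm_num)
  have h5 : ((R : ℝ) ^ 100) ^ 3 ≤ (N : ℝ) ^ 3 := pow_le_pow_left₀ (by positivity) hR' _
  have h6 : ((R : ℝ) ^ 100) ^ 3 < C * (64 * (R : ℝ) ^ 50) ^ 3 :=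
    lt_of_le_of_lt (h5.trans h3) (mul_lt_mul_of_pos_left h4 hC0)
  have h7 : C * (64 * (R : ℝ) ^ 50) ^ 3 = (C * 64 ^ 3) * (R : ℝ) ^ 150 := by
    rw [mul_pow, ← pow_mul]; ring
  have h8 : ((R : ℝ) ^ 100) ^ 3 = (R : ℝ) ^ 150 * (R : ℝ) ^ 150 := by
    rw [← pow_mul, ← pow_add]
  rw [h7, h8] at h6
  have h9 : (R : ℝ) ≤ (R : ℝ) ^ 150 := le_self_pow₀ hR1' (by norm_num)
  have h10 : (C * 64 ^ 3) * (R : ℝ) ^ 150 ≤ (R : ℝ) ^ 150 * (R : ℝ) ^ 150 :=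
    mul_le_mul_of_nonneg_right (hRC.trans h9) (by positivity)
  linarith

lemma cop4_aux {c n N R l : ℝ} (hc : 0 < c) (hR : 1 ≤ R) (hl0 : 0 ≤ l) (hl : l ≤ 101 * R)
    (hn : n ≤ N * l) (hN : R ^ 100 ≤ N) (hcR : 256 * 101 ^ 2 * c ≤ R) :
    16 * (n * (2 * R) ^ 4) * (c * l) ≤ N ^ 3 := by
  have hN0 : 0 < N := lt_of_lt_of_le (by positivity) hN
  have h1 : R ^ 7 ≤ N := le_trans (pow_le_pow_right₀ hR (by norm_num)) hN
  have h1' : 1 ≤ N := le_trans (one_le_pow₀ hR) h1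
  have h2 : l ^ 2 ≤ 101 ^ 2 * R ^ 2 := by nlinarith
  have h3 : 16 * (n * (2 * R) ^ 4) * (c * l) ≤ 256 * c * R ^ 4 * (N * l ^ 2) := by
    have : 0 ≤ R ^ 4 * (c * l) := by positivity
    nlinarith [mul_le_mul_of_nonneg_right hn this]
  refine h3.trans ?_
  calc 256 * c * R ^ 4 * (N * l ^ 2) ≤ 256 * c * R ^ 4 * (N * (101 ^ 2 * R ^ 2)) := by
        refine mul_le_mul_of_nonneg_left ?_ (by positivity)
        exact mul_le_mul_of_nonneg_left h2 hN0.le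
    _ = (256 * 101 ^ 2 * c) * R ^ 6 * N := by ring
    _ ≤ R * R ^ 6 * N := by
        refine mul_le_mul_of_nonneg_right ?_ hN0.le
        exact mul_le_mul_of_nonneg_right hcR (by positivity)
    _ = R ^ 7 * N := by ring
    _ ≤ N * N := mul_le_mul_of_nonneg_right h1 hN0.le
    _ ≤ N ^ 3 := by nlinarith [mul_pos hN0 hN0]

end Pool.Agent.TH490
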