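import Pool.Agent.TH490.StmP

/-! Equivariance of the bad sets; symmetric relation; degrees. -/

set_option autoImplicit false
set_option linter.unusedSectionVars false

namespace Pool.Agent.TH490

open Finset Classical

section

variable {I : Type} [Fintype I]

lemma mem_BadTup_comp {P : Type} (q : ℕ) (T : (Fin q → P) → Prop) (f : I → P)
    (π : Equiv.Perm I) (x : I) :
    x ∈ BadTup q T (f ∘ π) ↔ π x ∈ BadTup q T f := by
  simp only [BadTup, mem_filter, mem_univ, true_and, Function.comp]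
  constructor
  · rintro ⟨τ, hτ, ⟨j, hj⟩, hT⟩
    exact ⟨fun j => π (τ j), π.injective.comp hτ, ⟨j, by simp [hj]⟩, hT⟩
  · rintro ⟨τ, hτ, ⟨j, hj⟩, hT⟩
    refine ⟨fun j => π.symm (τ j), π.symm.injective.comp hτ, ⟨j, by simp [hj]⟩, ?_⟩
    simpa using hT

lemma relf_comp {N : ℕ} (M : ℕ) (f : I → Pos N) (π : Equiv.Perm I) (u v : I) :
    relf M (f ∘ π) u v ↔ relf M f (π u) (π v) := by
  unfold relf
  simp only [Function.comp]
  refine or_congr (by simp) (or_congr Iff.rfl ?_)
  constructor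
  · rintro ⟨a, b, h1, h2, h3, h4, h5, h6⟩
    exact ⟨π a, π b, by simpa using h1, by simpa using h2, by simpa using h3, by simpa using h4,
      by simpa using h5, h6⟩
  · rintro ⟨a, b, h1, h2, h3, h4, h5, h6⟩
    refine ⟨π.symm a, π.symm b, ?_, ?_, ?_, ?_, ?_, ?_⟩
    · intro h; apply h1; rw [← h]; simp
    · intro h; apply h2; rw [← h]; simp
    · intro h; apply h3; rw [← h]; simp
    · intro h; apply h4; rw [← h]; simp
    · intro h; apply h5; exact π.symm.injective h
    · simpa using h6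

lemma card_relf_comp {N : ℕ} (M : ℕ) (f : I → Pos N) (π : Equiv.Perm I) (u : I) :
    (univ.filter (fun v => relf M (f ∘ π) u v)).card
      = (univ.filter (fun v => relf M f (π u) v)).card := by
  refine Finset.card_bij (fun v _ => π v) ?_ ?_ ?_
  · intro v hv
    simp only [mem_filter, mem_univ, true_and] at hv ⊢
    exact (relf_comp M f π u v).1 hv
  · intro a _ b _ h
    exact π.injective h
  · intro b hb
    refine ⟨π.symm b, ?_, by simp⟩
    simp only [mem_filter, mem_univ, true_and] at hb ⊢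
    rw [relf_comp]
    simpa using hb

lemma mem_BadDeg_comp {N : ℕ} (M Q : ℕ) (f : I → Pos N) (π : Equiv.Perm I) (x : I) :
    x ∈ BadDeg M Q (f ∘ π) ↔ π x ∈ BadDeg M Q f := by
  simp only [BadDeg, mem_filter, mem_univ, true_and]
  rw [card_relf_comp]

lemma mem_Zg_comp {N : ℕ} (M Q : ℕ) (f : I → Pos N) (π : Equiv.Perm I) (x : I) :
    x ∈ Zg M Q (f ∘ π) ↔ π x ∈ Zg M Q f := by
  simp only [Zg, mem_union, mem_BadTup_comp, mem_BadDeg_comp]

lemma card_Zg_comp {N : ℕ} (M Q : ℕ) (f : I → Pos N) (π : Equiv.Perm I) :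
    (Zg M Q (f ∘ π)).card = (Zg M Q f).card := by
  refine Finset.card_bij (fun v _ => π v) ?_ ?_ ?_
  · intro v hv
    exact (mem_Zg_comp M Q f π v).1 hv
  · intro a _ b _ h
    exact π.injective h
  · intro b hb
    refine ⟨π.symm b, ?_, by simp⟩
    rw [mem_Zg_comp]
    simpa using hb

lemma RS_symm {N : ℕ} (M : ℕ) (x y : Pos N) (h : RS M x y) : RS M y x := by
  obtain ⟨a, ha, hn, h0⟩ := h
  refine ⟨a, ha, hn, ?_⟩
  simp only [dot, Pi.sub_apply] at h0 ⊢
  linarith

lemma Cop_swap {N : ℕ} (x y z w : Pos N) : Cop x y z w ↔ Cop y x z w := by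
  unfold Cop
  simp only [dot, cr, Pi.sub_apply, Matrix.cons_val_zero, Matrix.cons_val_one,
    Matrix.cons_val]
  constructor <;> intro h <;> linarith

lemma Col_swap {N : ℕ} (x y z : Pos N) : Col x y z ↔ Col y x z := by
  unfold Col
  simp only [cr]
  constructor
  · intro h
    have h0 := congrFun h 0
    have h1 := congrFun h 1
    have h2 := congrFun h 2
    simp at h0 h1 h2
    ext i
    fin_cases i <;> simp <;> linarith
  · intro h
    have h0 := congrFun h 0
    have h1 := congrFun h 1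
    have h2 := congrFun h 2
    simp at h0 h1 h2
    ext i
    fin_cases i <;> simp <;> linarith

lemma Tny_swap {N : ℕ} (M : ℕ) (x y z w : Pos N) (h : Tny M x y z w) : Tny M y x z w := by
  obtain ⟨a, ha, hn, h0, h1, h2⟩ := h
  refine ⟨a, ha, hn, ?_, ?_, ?_⟩ <;> simp only [dot, Pi.sub_apply] at h0 h1 h2 ⊢ <;> linarith

lemma LCop_swap {N : ℕ} (M : ℕ) (x y z w : Pos N) (h : LCop M x y z w) : LCop M y x z w :=
  ⟨(Cop_swap _ _ _ _).1 h.1, fun hc => h.2.1 ((Col_swap _ _ _).1 hc),
    fun ht => h.2.2 (Tny_swap _ _ _ _ _ ht)⟩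

lemma relf_symm {N : ℕ} (M : ℕ) (f : I → Pos N) (u v : I) (h : relf M f u v) :
    relf M f v u := by
  rcases h with h | h | ⟨a, b, h1, h2, h3, h4, h5, h6⟩
  · exact Or.inl h.symm
  · exact Or.inr (Or.inl (RS_symm M _ _ h))
  · exact Or.inr (Or.inr ⟨a, b, h2, h1, h4, h3, h5, LCop_swap M _ _ _ _ h6⟩)

lemma nearf_symm {N : ℕ} (M : ℕ) (Z : Finset I) (f : I → Pos N) (u v : I)
    (h : nearf M Z f u v) : nearf M Z f v u := by
  obtain ⟨h1, h2, w, h3, h4, h5⟩ := h
  exact ⟨h2, h1, w, h3, relf_symm M f _ _ h5, relf_symm M f _ _ h4⟩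

lemma nearf_comp {N : ℕ} (M Q : ℕ) (f : I → Pos N) (π : Equiv.Perm I) (u v : I) :
    nearf M (Zg M Q (f ∘ π)) (f ∘ π) u v ↔ nearf M (Zg M Q f) f (π u) (π v) := by
  unfold nearf
  simp only [mem_Zg_comp, relf_comp]
  refine and_congr Iff.rfl (and_congr Iff.rfl ?_)
  constructor
  · rintro ⟨w, h1, h2, h3⟩
    exact ⟨π w, h1, h2, h3⟩
  · rintro ⟨w, h1, h2, h3⟩
    exact ⟨π.symm w, by simpa using h1, by simpa using h2, by simpa using h3⟩

lemma nearf_mono {N : ℕ} (M : ℕ) {Z Z' : Finset I} (hZ : Z ⊆ Z') (f : I → Pos N) (u v : I)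
    (h : nearf M Z' f u v) : nearf M Z f u v := by
  obtain ⟨h1, h2, w, h3, h4, h5⟩ := h
  exact ⟨fun h => h1 (hZ h), fun h => h2 (hZ h), w, fun h => h3 (hZ h), h4, h5⟩

lemma card_near_le {N : ℕ} (M Q : ℕ) (f : I → Pos N) (x : I) :
    (univ.filter (fun y => nearf M (Zg M Q f) f x y)).card ≤ Q * Q := by
  by_cases hx : x ∈ Zg M Q f
  · rw [Finset.filter_false_of_mem]
    · simp
    · intro y _ h
      exact h.1 hx
  · have hdeg : ∀ v, v ∉ Zg M Q f → (univ.filter (fun w => relf M f v w)).card ≤ Q := by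
      intro v hv
      by_contra hc
      apply hv
      simp only [Zg, mem_union, BadDeg, mem_filter, mem_univ, true_and]
      right
      omega
    have hsub : (univ.filter (fun y => nearf M (Zg M Q f) f x y)) ⊆
        ((univ.filter (fun v => relf M f x v)).filter (fun v => v ∉ Zg M Q f)).biUnion
          (fun v => univ.filter (fun w => relf M f v w)) := by
      intro y hy
      simp only [mem_filter, mem_univ, true_and] at hy
      obtain ⟨_, _, v, hv, h1, h2⟩ := hy
      simp only [mem_biUnion, mem_filter, mem_univ, true_and]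
      exact ⟨v, ⟨h1, hv⟩, h2⟩
    refine (card_le_card hsub).trans (card_biUnion_le.trans ?_)
    refine (Finset.sum_le_card_nsmul _ _ Q ?_).trans ?_
    · intro v hv
      exact hdeg v (mem_filter.1 hv).2
    · rw [smul_eq_mul]
      refine Nat.mul_le_mul_right _ ((card_le_card (filter_subset _ _)).trans (hdeg x hx))

end

end Pool.Agent.TH490
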