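import Pool.Agent.TH490.DPoolA

/-! The bad events of the pool theorem. -/

set_option autoImplicit false
set_option linter.unusedSectionVars false

namespace Pool.Agent.TH490

open Finset Classical

lemma exists_root (N : ℕ) : ∃ R : ℕ, R ^ 100 ≤ N ∧ N < (R + 1) ^ 100 := by
  refine ⟨Nat.findGreatest (fun R => R ^ 100 ≤ N) N, ?_, ?_⟩
  · exact Nat.findGreatest_spec (P := fun R => R ^ 100 ≤ N) (m := 0) (Nat.zero_le _) (by simp)
  · by_contra h
    push Not at h
    have h1 : Nat.findGreatest (fun R => R ^ 100 ≤ N) N + 1 ≤ N := by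
      refine le_trans ?_ h
      exact Nat.le_self_pow (by norm_num) _
    have h2 := Nat.le_findGreatest (P := fun R => R ^ 100 ≤ N) h1 h
    omega

lemma root_large {R₁ N R : ℕ} (h1 : R₁ ^ 100 ≤ N) (h2 : N < (R + 1) ^ 100) : R₁ ≤ R := by
  by_contra h
  push Not at h
  have : (R + 1) ^ 100 ≤ R₁ ^ 100 := Nat.pow_le_pow_left h _
  omega

lemma ev_exp (k : ℕ) (r A : ℝ) (hr0 : 0 < r) (hr : r < 1) :
    ∃ R₁ : ℕ, ∀ R : ℕ, R₁ ≤ R → A * ((R : ℝ) + 1) ^ k * r ^ R ≤ 1 := by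
  have h := tendsto_pow_const_mul_const_pow_of_abs_lt_one k (r := r)
    (by rw [abs_of_pos hr0]; exact hr)
  have h2 : Filter.Tendsto (fun n : ℕ => (|A| * 2 ^ k) * ((n : ℝ) ^ k * r ^ n)) Filter.atTop
      (nhds ((|A| * 2 ^ k) * 0)) := h.const_mul _
  rw [mul_zero] at h2
  have h3 := h2.eventually (gt_mem_nhds (show (0 : ℝ) < 1 by norm_num))
  obtain ⟨R₁, hR₁⟩ := Filter.eventually_atTop.1 h3
  refine ⟨max R₁ 1, fun R hR => ?_⟩
  have h4 := hR₁ R (le_trans (le_max_left _ _) hR)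
  have h5 : (1 : ℝ) ≤ R := by exact_mod_cast le_trans (le_max_right _ _) hR
  refine le_trans ?_ h4.le
  have h6 : ((R : ℝ) + 1) ^ k ≤ 2 ^ k * (R : ℝ) ^ k := by
    rw [← mul_pow]
    exact pow_le_pow_left₀ (by positivity) (by linarith) _
  calc A * ((R : ℝ) + 1) ^ k * r ^ R ≤ |A| * (2 ^ k * (R : ℝ) ^ k) * r ^ R := by
        refine mul_le_mul_of_nonneg_right ?_ (by positivity)
        refine (mul_le_mul_of_nonneg_right (le_abs_self A) (by positivity)).trans ?_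
        exact mul_le_mul_of_nonneg_left h6 (abs_nonneg _)
    _ = |A| * 2 ^ k * ((R : ℝ) ^ k * r ^ R) := by ring

lemma card_Pos (N : ℕ) : Fintype.card (Pos N) = N ^ 3 := by
  simp [Pos]

lemma card_Om (n R N : ℕ) : Fintype.card (Fin n × Fin (2 * R) → Pos N)
    = (N ^ 3) ^ (n * (2 * R)) := by
  rw [Fintype.card_fun, card_Pos]
  simp

/-- event 1: too many geometrically bad items -/
lemma event1 {n R N : ℕ} (M Q : ℕ)
    (h : ∑ f : Fin n × Fin (2 * R) → Pos N, ((Zg M Q f).card : ℝ)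
      ≤ (1 / 1024) * (n * (2 * R)) * ((N : ℝ) ^ 3) ^ (n * (2 * R))) (hn : 1 ≤ n) (hR : 1 ≤ R) :
    16 * ((univ.filter (fun f : Fin n × Fin (2 * R) → Pos N =>
      (1 / 64) * ((n : ℝ) * (2 * R)) < ((Zg M Q f).card : ℝ))).card : ℝ)
      ≤ ((N : ℝ) ^ 3) ^ (n * (2 * R)) := by
  set A := univ.filter (fun f : Fin n × Fin (2 * R) → Pos N =>
      (1 / 64) * ((n : ℝ) * (2 * R)) < ((Zg M Q f).card : ℝ)) with hA
  have hm : (0 : ℝ) < (n : ℝ) * (2 * R) := by
    have : (0 : ℝ) < n := by exact_mod_cast hn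
    have : (0 : ℝ) < R := by exact_mod_cast hR
    positivity
  have h1 : (A.card : ℝ) * ((1 / 64) * ((n : ℝ) * (2 * R))) ≤
      ∑ f : Fin n × Fin (2 * R) → Pos N, ((Zg M Q f).card : ℝ) := by
    calc (A.card : ℝ) * ((1 / 64) * ((n : ℝ) * (2 * R)))
        = ∑ f ∈ A, ((1 / 64) * ((n : ℝ) * (2 * R))) := by
          rw [Finset.sum_const, nsmul_eq_mul]
      _ ≤ ∑ f ∈ A, ((Zg M Q f).card : ℝ) :=
          Finset.sum_le_sum (fun f hf => (mem_filter.1 hf).2.le)
      _ ≤ ∑ f : Fin n × Fin (2 * R) → Pos N, ((Zg M Q f).card : ℝ) :=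
          Finset.sum_le_sum_of_subset_of_nonneg (subset_univ _) (fun _ _ _ => by positivity)
  have h2 := h1.trans h
  have h3 : (A.card : ℝ) * (16 * ((1 / 1024) * ((n : ℝ) * (2 * R))))
      ≤ ((N : ℝ) ^ 3) ^ (n * (2 * R)) * ((1 / 1024) * ((n : ℝ) * (2 * R))) := by
    nlinarith [h2]
  have h4 : (0 : ℝ) < (1 / 1024) * ((n : ℝ) * (2 * R)) := by positivity
  have h5 : 16 * (A.card : ℝ) * ((1 / 1024) * ((n : ℝ) * (2 * R)))
      ≤ ((N : ℝ) ^ 3) ^ (n * (2 * R)) * ((1 / 1024) * ((n : ℝ) * (2 * R))) := by linarith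
  exact le_of_mul_le_mul_right h5 h4

/-- event 2: a list is filled by geometrically bad items -/
lemma event2 (hP2 : P2_bad) (hd : P2_double) {n R N : ℕ} (M Q : ℕ) 
    (hnR : 16 * (n : ℝ) * (1 / 2) ^ R ≤ 1) :
    16 * ((univ.filter (fun f : Fin n × Fin (2 * R) → Pos N =>
      ((Zg M Q f).card : ℝ) ≤ (1 / 64) * ((n : ℝ) * (2 * R)) ∧
      ∃ i, 2 * R < 4 * (univ.filter (fun s : Fin (2 * R) => (i, s) ∈ Zg M Q f)).card)).card : ℝ)
      ≤ ((N : ℝ) ^ 3) ^ (n * (2 * R)) := by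
  have key := hd (Fin n × Fin (2 * R)) (Pos N)
    (fun f => ((Zg M Q f).card : ℝ) ≤ (1 / 64) * ((n : ℝ) * (2 * R)))
    (fun f => ∃ i, 2 * R < 4 * (univ.filter (fun s : Fin (2 * R) => (i, s) ∈ Zg M Q f)).card)
    (1 / 16) (by norm_num) ?_ ?_
  · have hc : Fintype.card (Fin n × Fin (2 * R)) = n * (2 * R) := by simp
    rw [card_Pos, hc] at key
    have key2 : 16 * ((univ.filter (fun f : Fin n × Fin (2 * R) → Pos N =>
      ((Zg M Q f).card : ℝ) ≤ (1 / 64) * ((n : ℝ) * (2 * R)) ∧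
      ∃ i, 2 * R < 4 * (univ.filter (fun s : Fin (2 * R) => (i, s) ∈ Zg M Q f)).card)).card : ℝ)
      ≤ 16 * (1 / 16 * (((N ^ 3 : ℕ) : ℝ)) ^ (n * (2 * R))) := by
      refine mul_le_mul_of_nonneg_left (le_trans (le_of_eq ?_) key) (by norm_num)
      congr!
    push_cast at key2
    linarith
  · intro f hf
    have h1 := hP2 n (2 * R) (Zg M Q f) (1 / 64) (by norm_num) (by norm_num)
      (by push_cast; exact hf)
    have hc : Fintype.card (Fin n × Fin (2 * R)) = n * (2 * R) := by simp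
    rw [hc]
    have e1 : (fun π : Equiv.Perm (Fin n × Fin (2 * R)) => ∃ i, 2 * R <
        4 * (univ.filter (fun s : Fin (2 * R) => (i, s) ∈ Zg M Q (f ∘ π))).card)
        = (fun π : Equiv.Perm (Fin n × Fin (2 * R)) =>
      ∃ i, 2 * R < 4 * (univ.filter (fun s : Fin (2 * R) => π (i, s) ∈ Zg M Q f)).card) := by
      funext π
      simp only [mem_Zg_comp]
    have e2 : (univ.filter (fun π : Equiv.Perm (Fin n × Fin (2 * R)) => ∃ i, 2 * R <
        4 * (univ.filter (fun s : Fin (2 * R) => (i, s) ∈ Zg M Q (f ∘ π))).card))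
        = (univ.filter (fun π : Equiv.Perm (Fin n × Fin (2 * R)) =>
      ∃ i, 2 * R < 4 * (univ.filter (fun s : Fin (2 * R) => π (i, s) ∈ Zg M Q f)).card)) := by
      ext π
      simp only [mem_filter, mem_univ, true_and, mem_Zg_comp]
    have e2' : ((univ.filter (fun π : Equiv.Perm (Fin n × Fin (2 * R)) => ∃ i, 2 * R <
        4 * (univ.filter (fun s : Fin (2 * R) => (i, s) ∈ Zg M Q (f ∘ π))).card)).card : ℝ)
        ≤ n * 2 ^ (2 * R) * (1 / 64 : ℝ) ^ (((2 * R : ℕ) : ℝ) / 4) * (n * (2 * R)).factorial := by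
      rw [e2]; exact h1
    refine le_trans (le_of_eq ?_) (e2'.trans ?_)
    · congr!
    refine mul_le_mul_of_nonneg_right ?_ (by positivity)
    have e3 : ((1 : ℝ) / 64) ^ (((2 * R : ℕ) : ℝ) / 4) = (1 / 8) ^ R := by
      have : (((2 * R : ℕ) : ℝ) / 4) = (1 / 2) * (R : ℝ) := by push_cast; ring
      rw [this, Real.rpow_mul (by norm_num), Real.rpow_natCast]
      congr 1
      rw [show ((1 : ℝ) / 64) = (1 / 8) ^ (2 : ℝ) by norm_num, ← Real.rpow_mul (by norm_num)]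
      norm_num
    rw [e3]
    have e4 : (2 : ℝ) ^ (2 * R) * (1 / 8) ^ R = (1 / 2) ^ R := by
      rw [pow_mul, ← mul_pow]; norm_num
    calc (n : ℝ) * 2 ^ (2 * R) * (1 / 8) ^ R = n * (2 ^ (2 * R) * (1 / 8) ^ R) := by ring
      _ = n * (1 / 2) ^ R := by rw [e4]
      _ ≤ 1 / 16 := by linarith
  · intro f π hf
    rw [card_Zg_comp]
    exact hf

/-- event 3: two lists with many close pairs -/
lemma event3 (hP2 : P2_near) (hd : P2_double) {n R N : ℕ} (M Q : ℕ) (hQ : 1 ≤ Q) (hR : 1 ≤ R)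
    (hn : (4 * (Q * Q) * (2 * R)) ^ 2 ≤ n) :
    32 * ((univ.filter (fun f : Fin n × Fin (2 * R) → Pos N =>
      ∃ i t, i ≠ t ∧ 30 < (univ.filter (fun s : Fin (2 * R) => ∃ s' : Fin (2 * R),
        nearf M (Zg M Q f) f (i, s) (t, s'))).card)).card : ℝ)
      ≤ ((N : ℝ) ^ 3) ^ (n * (2 * R)) := by
  have key := hd (Fin n × Fin (2 * R)) (Pos N)
    (fun f => True)
    (fun f => ∃ i t, i ≠ t ∧ 30 < (univ.filter (fun s : Fin (2 * R) => ∃ s' : Fin (2 * R),
        nearf M (Zg M Q f) f (i, s) (t, s'))).card)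
    (1 / 32) (by norm_num) ?_ ?_
  · have hc : Fintype.card (Fin n × Fin (2 * R)) = n * (2 * R) := by simp
    rw [card_Pos, hc] at key
    have key2 : 32 * ((univ.filter (fun f : Fin n × Fin (2 * R) → Pos N =>
      ∃ i t, i ≠ t ∧ 30 < (univ.filter (fun s : Fin (2 * R) => ∃ s' : Fin (2 * R),
        nearf M (Zg M Q f) f (i, s) (t, s'))).card)).card : ℝ)
      ≤ 32 * (1 / 32 * (((N ^ 3 : ℕ) : ℝ)) ^ (n * (2 * R))) := by
      refine mul_le_mul_of_nonneg_left (le_trans ?_ key) (by norm_num)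
      refine Nat.cast_le.2 (card_le_card ?_)
      intro f hf
      simp only [mem_filter, mem_univ, true_and] at hf ⊢
      convert hf
    push_cast at key2
    linarith
  · intro f _
    have h1 := hP2 n (2 * R) (Q * Q) (nearf M (Zg M Q f) f) (nearf_symm M _ f)
      (card_near_le M Q f) (Nat.mul_pos hQ hQ) (by omega) hn
    have hc : Fintype.card (Fin n × Fin (2 * R)) = n * (2 * R) := by simp
    rw [hc]
    have e2 : (univ.filter (fun π : Equiv.Perm (Fin n × Fin (2 * R)) => ∃ i t, i ≠ t ∧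
        30 < (univ.filter (fun s : Fin (2 * R) => ∃ s' : Fin (2 * R),
        nearf M (Zg M Q (f ∘ π)) (f ∘ π) (i, s) (t, s'))).card))
        = (univ.filter (fun π : Equiv.Perm (Fin n × Fin (2 * R)) => ∃ i t, i ≠ t ∧
        30 < (univ.filter (fun s : Fin (2 * R) => ∃ s' : Fin (2 * R),
        nearf M (Zg M Q f) f (π (i, s)) (π (t, s')))).card)) := by
      ext π
      simp only [mem_filter, mem_univ, true_and, nearf_comp]
    have h2 : (32 : ℝ) * ((univ.filter (fun π : Equiv.Perm (Fin n × Fin (2 * R)) => ∃ i t, i ≠ t ∧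
        30 < (univ.filter (fun s : Fin (2 * R) => ∃ s' : Fin (2 * R),
        nearf M (Zg M Q f) f (π (i, s)) (π (t, s')))).card)).card : ℝ)
        ≤ ((n * (2 * R)).factorial : ℝ) := by
      exact_mod_cast h1
    rw [← e2] at h2
    have h3 : ((univ.filter (fun π : Equiv.Perm (Fin n × Fin (2 * R)) => ∃ i t, i ≠ t ∧
        30 < (univ.filter (fun s : Fin (2 * R) => ∃ s' : Fin (2 * R),
        nearf M (Zg M Q (f ∘ π)) (f ∘ π) (i, s) (t, s'))).card)).card : ℝ)
        ≤ 1 / 32 * ((n * (2 * R)).factorial : ℝ) := by linarith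
    refine le_trans (le_of_eq ?_) h3
    congr!
  · intro f π _
    trivial

end Pool.Agent.TH490
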