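import Pool.Agent.TH490.DPoolB

/-! The bad events of the pool theorem, continued. -/

set_option autoImplicit false
set_option linter.unusedSectionVars false
set_option linter.unusedSimpArgs false
set_option linter.unusedVariables false
set_option maxHeartbeats 400000

namespace Pool.Agent.TH490

open Finset Classical

/-- coplanarity with a non-collinear triple is membership in the plane -/
lemma cop_iff_plane {N : ℕ} {x y z : Pos N} {ν : V3} 
    (hy : dot ν (toZ y - toZ x) = 0) (hz : dot ν (toZ z - toZ x) = 0) (hc : ¬ Col x y z)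
    (w : Pos N) (hw : dot ν (toZ w - toZ x) = 0) (hν : ν ≠ 0) : Cop x y z w := by
  unfold Cop
  -- three vectors orthogonal to a nonzero vector: the determinant vanishes
  set u := toZ y - toZ x with hu
  set v := toZ z - toZ x with hv
  set t := toZ w - toZ x with ht
  have h1 : ∀ i, ν i * dot (cr u v) t = 0 := by
    intro i
    unfold dot at hy hz hw
    fin_cases i
    · simp only [dot, cr, Matrix.cons_val_zero, Matrix.cons_val_one, Matrix.cons_val,
        Fin.zero_eta]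
      linear_combination (v 1 * t 2 - v 2 * t 1) * hy - (u 1 * t 2 - u 2 * t 1) * hz
        + (u 1 * v 2 - u 2 * v 1) * hw
    · simp only [dot, cr, Matrix.cons_val_zero, Matrix.cons_val_one, Matrix.cons_val,
        Fin.mk_one]
      linear_combination (v 2 * t 0 - v 0 * t 2) * hy - (u 2 * t 0 - u 0 * t 2) * hz
        + (u 2 * v 0 - u 0 * v 2) * hw
    · simp only [dot, cr, Matrix.cons_val_zero, Matrix.cons_val_one, Matrix.cons_val,
        Fin.reduceFinMk]
      linear_combination (v 0 * t 1 - v 1 * t 0) * hy - (u 0 * t 1 - u 1 * t 0) * hz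
        + (u 0 * v 1 - u 1 * v 0) * hw
  by_contra h
  apply hν
  funext i
  rcases mul_eq_zero.1 (h1 i) with h2 | h2
  · simpa using h2
  · exact absurd h2 h

lemma Prim.ne_zero {a : V3} (h : Prim a) : a ≠ 0 := by
  rintro rfl
  simp [Prim, cont] at h

/-- the points coplanar with a non-collinear triple lie in the plane -/
lemma plane_of_cop {N : ℕ} {x y z : Pos N} {ν : V3} 
    (hy : dot ν (toZ y - toZ x) = 0) (hz : dot ν (toZ z - toZ x) = 0) (hc : ¬ Col x y z)
    (w : Pos N) (hw : Cop x y z w) : dot ν (toZ w - toZ x) = 0 := by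
  unfold Cop at hw
  set u := toZ y - toZ x with hu
  set v := toZ z - toZ x with hv
  set t := toZ w - toZ x with ht
  have h1 : ∀ i, cr u v i * dot ν t = 0 := by
    intro i
    unfold dot at hy hz
    simp only [dot, cr, Matrix.cons_val_zero, Matrix.cons_val_one, Matrix.cons_val] at hw
    fin_cases i
    · simp only [dot, cr, Matrix.cons_val_zero, Matrix.cons_val_one, Matrix.cons_val,
        Fin.zero_eta]
      linear_combination (v 2 * t 1 - v 1 * t 2) * hy - (u 2 * t 1 - u 1 * t 2) * hz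
        + ν 0 * hw
    · simp only [dot, cr, Matrix.cons_val_zero, Matrix.cons_val_one, Matrix.cons_val,
        Fin.mk_one]
      linear_combination (v 0 * t 2 - v 2 * t 0) * hy - (u 0 * t 2 - u 2 * t 0) * hz
        + ν 1 * hw
    · simp only [dot, cr, Matrix.cons_val_zero, Matrix.cons_val_one, Matrix.cons_val,
        Fin.reduceFinMk]
      linear_combination (v 1 * t 0 - v 0 * t 1) * hy - (u 1 * t 0 - u 0 * t 1) * hz
        + ν 2 * hw
  by_contra h
  apply hc
  unfold Col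
  funext i
  rcases mul_eq_zero.1 (h1 i) with h2 | h2
  · simpa using h2
  · exact absurd h2 h

lemma num6 {n R N t a M₀ : ℝ} (hn' : 0 < n) (hR' : 0 < R) (hN' : 0 < N) (ht0 : 0 < t)
    (ha0 : 0 ≤ a) (hM₀ : 20000 * n / N ≤ M₀) (hA : a * (M₀ + 1) ≤ 18 * N ^ 2)
    (h13 : R ≤ 40 * t) : (3 : ℝ) * (n * (2 * R)) * a / (t * N ^ 3) ≤ 0.216 := by
  have h10 : a * (20000 * n / N) ≤ 18 * N ^ 2 :=
    le_trans (mul_le_mul_of_nonneg_left (by linarith) ha0) hA
  have h11 : a * (20000 * n) ≤ 18 * N ^ 3 := by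
    have : a * (20000 * n / N) * N = a * (20000 * n) := by field_simp
    nlinarith [mul_le_mul_of_nonneg_right h10 hN'.le]
  have h12 : (3 : ℝ) * (n * (2 * R)) * a ≤ 3 * (2 * R) * (18 * N ^ 3 / 20000) := by
    have : a * n ≤ 18 * N ^ 3 / 20000 := by linarith
    nlinarith [mul_le_mul_of_nonneg_left this (by positivity : (0 : ℝ) ≤ 3 * (2 * R))]
  have hN3 : (0 : ℝ) < N ^ 3 := by positivity
  rw [div_le_iff₀ (by positivity)]
  refine h12.trans ?_
  nlinarith [mul_le_mul_of_nonneg_right h13 hN3.le]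

lemma num6' {n R N t a : ℝ} (hn' : 0 < n) (hR' : 0 < R) (hN' : 0 < N) (ht0 : 0 < t)
    (ha0 : 0 ≤ a) : 0 ≤ (3 : ℝ) * (n * (2 * R)) * a / (t * N ^ 3) := by
  positivity

lemma num6'' {b N9 p O A r : ℝ} (hA : 0 ≤ A) (hp : 0 ≤ p) (hO : 0 ≤ O)
    (h1 : b ≤ N9 * (p * O)) (h2 : N9 ≤ A) (h3 : p ≤ r) (h4 : 16 * A * r ≤ 1) (hr : 0 ≤ r) :
    16 * b ≤ O := by
  have h5 : N9 * (p * O) ≤ A * (r * O) := by
    refine mul_le_mul h2 (mul_le_mul_of_nonneg_right h3 hO) (by positivity) hA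
  have h6 : (16 * A * r) * O ≤ 1 * O := mul_le_mul_of_nonneg_right h4 hO
  nlinarith

lemma nn_pow (N : ℕ) (k : ℕ) : (0 : ℝ) ≤ ((N : ℝ) ^ 3) ^ k := by positivity

/-- event 6: a plane whose normal is not tiny contains many items -/
lemma event6 (hG1 : G1_pos) (hP4 : P4_dev) {n R N M₀ : ℕ} (hn : 1 ≤ n) (hR : 1 ≤ R) (hN : 1 ≤ N)
    (hM₀ : 20000 * (n : ℝ) / N ≤ M₀)
    (hsm : 16 * ((R : ℝ) + 1) ^ 900 * ((0.216 : ℝ) ^ ((1 : ℝ) / 40)) ^ R ≤ 1)
    (hNR : N < (R + 1) ^ 100) :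
    16 * ((univ.filter (fun f : Fin n × Fin (2 * R) → Pos N =>
      ∃ x y z : Pos N, ¬ Col x y z ∧ (∃ ν : V3, Prim ν ∧ M₀ < nrm ν ∧
        dot ν (toZ y - toZ x) = 0 ∧ dot ν (toZ z - toZ x) = 0) ∧
        R < 40 * (univ.filter (fun w : Fin n × Fin (2 * R) => Cop x y z (f w))).card)).card : ℝ)
      ≤ ((N : ℝ) ^ 3) ^ (n * (2 * R)) := by
  have hn' : (0 : ℝ) < n := by exact_mod_cast hn
  have hR' : (0 : ℝ) < R := by exact_mod_cast hR
  have hN' : (0 : ℝ) < N := by exact_mod_cast hN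
  haveI : Nonempty (Pos N) := ⟨fun _ => ⟨0, hN⟩⟩
  set t : ℕ := R / 40 + 1 with ht
  have ht1 : (R : ℝ) / 40 ≤ t := by
    have : R < 40 * t := by omega
    have : (R : ℝ) < 40 * t := by exact_mod_cast this
    linarith
  have ht0 : (0 : ℝ) < t := by
    have : 1 ≤ t := by omega
    exact_mod_cast this
  set E : Pos N × Pos N × Pos N → Finset (Fin n × Fin (2 * R) → Pos N) := fun p =>
    if (¬ Col p.1 p.2.1 p.2.2 ∧ (∃ ν : V3, Prim ν ∧ M₀ < nrm ν ∧
        dot ν (toZ p.2.1 - toZ p.1) = 0 ∧ dot ν (toZ p.2.2 - toZ p.1) = 0)) then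
      univ.filter (fun f : Fin n × Fin (2 * R) → Pos N =>
        t ≤ (univ.filter (fun w => f w ∈ univ.filter (fun q => Cop p.1 p.2.1 p.2.2 q))).card)
    else ∅ with hE
  have hsub : (univ.filter (fun f : Fin n × Fin (2 * R) → Pos N =>
      ∃ x y z : Pos N, ¬ Col x y z ∧ (∃ ν : V3, Prim ν ∧ M₀ < nrm ν ∧
        dot ν (toZ y - toZ x) = 0 ∧ dot ν (toZ z - toZ x) = 0) ∧
        R < 40 * (univ.filter (fun w : Fin n × Fin (2 * R) => Cop x y z (f w))).card))
      ⊆ univ.biUnion E := by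
    intro f hf
    simp only [mem_filter, mem_univ, true_and] at hf
    obtain ⟨x, y, z, h1, h2, h3⟩ := hf
    simp only [mem_biUnion, mem_univ, true_and]
    refine ⟨(x, y, z), ?_⟩
    simp only [hE]
    rw [if_pos ⟨h1, h2⟩]
    simp only [mem_filter, mem_univ, true_and]
    omega
  have hbound : ∀ p, ((E p).card : ℝ) ≤ (0.216 : ℝ) ^ t * ((N : ℝ) ^ 3) ^ (n * (2 * R)) := by
    intro p
    simp only [hE]
    split_ifs with h
    · obtain ⟨h1, ν, h2, h3, h4, h5⟩ := h
      have hA : ((univ.filter (fun q => Cop p.1 p.2.1 p.2.2 q)).card : ℝ) * (M₀ + 1)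
          ≤ 18 * (N : ℝ) ^ 2 := by
        have h6 := hG1 N ν h2 p.1 p.2.1 p.2.2 h4 h5 h1
        have h7 : (univ.filter (fun q => Cop p.1 p.2.1 p.2.2 q)).card ≤
            (univ.filter (fun w : Pos N => dot ν (toZ w - toZ p.1) = 0)).card := by
          refine card_le_card ?_
          intro w hw
          simp only [mem_filter, mem_univ, true_and] at hw ⊢
          exact plane_of_cop h4 h5 h1 w hw
        have h8 : (univ.filter (fun q => Cop p.1 p.2.1 p.2.2 q)).card * (M₀ + 1)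
            ≤ 18 * N ^ 2 :=
          le_trans (Nat.mul_le_mul h7 h3) h6
        exact_mod_cast h8
      have h14 := num6 hn' hR' hN' ht0 (Nat.cast_nonneg _) hM₀ hA (by linarith only [ht1])
      have h15 : (0 : ℝ) ≤ (3 : ℝ) * (n * (2 * R)) *
        ((univ.filter (fun q => Cop p.1 p.2.1 p.2.2 q)).card : ℝ) / (t * (N : ℝ) ^ 3) :=
        num6' hn' hR' hN' ht0 (Nat.cast_nonneg _)
      have h16 := pow_le_pow_left₀ h15 h14 t
      have h17 : (0 : ℝ) ≤ ((N : ℝ) ^ 3) ^ (n * (2 * R)) := nn_pow _ _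
      have h18 := mul_le_mul_of_nonneg_right h16 h17
      have h9 := hP4 (Fin n × Fin (2 * R)) (Pos N) (univ.filter (fun q => Cop p.1 p.2.1 p.2.2 q))
        t (by omega)
      have hc : Fintype.card (Fin n × Fin (2 * R)) = n * (2 * R) := by simp
      rw [card_Pos, hc] at h9
      refine le_trans (le_of_eq ?_) (le_trans h9 (le_trans (le_of_eq ?_) h18))
      · congr!
      · push_cast
        ring
    · simp only [card_empty, Nat.cast_zero]
      positivity
  have h1 : ((univ.filter (fun f : Fin n × Fin (2 * R) → Pos N =>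
      ∃ x y z : Pos N, ¬ Col x y z ∧ (∃ ν : V3, Prim ν ∧ M₀ < nrm ν ∧
        dot ν (toZ y - toZ x) = 0 ∧ dot ν (toZ z - toZ x) = 0) ∧
        R < 40 * (univ.filter (fun w : Fin n × Fin (2 * R) => Cop x y z (f w))).card)).card : ℝ)
      ≤ (N : ℝ) ^ 9 * ((0.216 : ℝ) ^ t * ((N : ℝ) ^ 3) ^ (n * (2 * R))) := by
    refine (Nat.cast_le.2 ((card_le_card hsub).trans card_biUnion_le)).trans ?_
    push_cast
    refine (Finset.sum_le_sum (fun p _ => hbound p)).trans ?_
    rw [Finset.sum_const, nsmul_eq_mul, card_univ]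
    refine le_of_eq ?_
    simp only [Fintype.card_prod, card_Pos]
    push_cast
    ring
  have hlt : (0.216 : ℝ) ^ t ≤ ((0.216 : ℝ) ^ ((1 : ℝ) / 40)) ^ R := by
    rw [← Real.rpow_natCast, ← Real.rpow_natCast, ← Real.rpow_mul (by norm_num)]
    refine Real.rpow_le_rpow_of_exponent_ge (by norm_num) (by norm_num) ?_
    linarith
  have hN9 : (N : ℝ) ^ 9 ≤ ((R : ℝ) + 1) ^ 900 := by
    have h3 : (N : ℝ) ≤ ((R : ℝ) + 1) ^ 100 := by exact_mod_cast hNR.le
    calc (N : ℝ) ^ 9 ≤ (((R : ℝ) + 1) ^ 100) ^ 9 := pow_le_pow_left₀ (by positivity) h3 _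
      _ = _ := by rw [← pow_mul]
  exact num6'' (by positivity) (by positivity) (nn_pow _ _) h1 hN9 hlt hsm (by positivity)

/-- number of functions `Fin 4 → Pos N` with coplanar values -/
lemma card_cop4 {c : ℝ} {N : ℕ} (hc : ∀ y : Pos N,
    ((univ.filter (fun t : Pos N × Pos N × Pos N => Cop y t.1 t.2.1 t.2.2)).card : ℝ)
      ≤ c * (N : ℝ) ^ 6 * Real.log N) :
    ((univ.filter (fun t : Fin 4 → Pos N => Cop (t 0) (t 1) (t 2) (t 3))).card : ℝ)
      ≤ (N : ℝ) ^ 3 * (c * (N : ℝ) ^ 6 * Real.log N) := by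
  have h1 : (univ.filter (fun t : Fin 4 → Pos N => Cop (t 0) (t 1) (t 2) (t 3))).card
      = ∑ y : Pos N,
        (univ.filter (fun t : Pos N × Pos N × Pos N => Cop y t.1 t.2.1 t.2.2)).card := by
    rw [← Finset.card_sigma]
    refine Finset.card_bij (fun t _ => ⟨t 0, (t 1, t 2, t 3)⟩) ?_ ?_ ?_
    · intro t ht
      simp only [mem_sigma, mem_univ, true_and, mem_filter] at ht ⊢
      exact ht
    · intro s _ t _ h
      simp only [Sigma.mk.injEq, heq_eq_eq, Prod.mk.injEq] at h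
      obtain ⟨h0, h1, h2, h3⟩ := h
      funext i
      fin_cases i
      · exact h0
      · exact h1
      · exact h2
      · exact h3
    · rintro ⟨y, a, b, d⟩ h
      simp only [mem_sigma, mem_univ, true_and, mem_filter] at h
      refine ⟨![y, a, b, d], ?_, ?_⟩
      · simp only [mem_filter, mem_univ, true_and]
        exact h
      · rfl
  rw [h1]
  push_cast
  refine (Finset.sum_le_sum (fun y _ => hc y)).trans ?_
  rw [Finset.sum_const, nsmul_eq_mul, card_univ, card_Pos]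
  push_cast
  exact le_refl _

/-- event 7: four coplanar items in one list -/
lemma event7 (hP1 : P1_one) {c : ℝ} {n R N : ℕ} (hN : 1 ≤ N) (hc0 : 0 < c)
    (hc : ∀ y : Pos N,
    ((univ.filter (fun t : Pos N × Pos N × Pos N => Cop y t.1 t.2.1 t.2.2)).card : ℝ)
      ≤ c * (N : ℝ) ^ 6 * Real.log N)
    (hsm : 16 * (n * (2 * (R : ℝ)) ^ 4) * (c * Real.log N) ≤ (N : ℝ) ^ 3) :
    16 * ((univ.filter (fun f : Fin n × Fin (2 * R) → Pos N =>
      ∃ (i : Fin n) (τ : Fin 4 → Fin (2 * R)), Function.Injective τ ∧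
        Cop (f (i, τ 0)) (f (i, τ 1)) (f (i, τ 2)) (f (i, τ 3)))).card : ℝ)
      ≤ ((N : ℝ) ^ 3) ^ (n * (2 * R)) := by
  have hN' : (0 : ℝ) < N := by exact_mod_cast hN
  haveI : Nonempty (Pos N) := ⟨fun _ => ⟨0, hN⟩⟩
  set E : Fin n × (Fin 4 → Fin (2 * R)) → Finset (Fin n × Fin (2 * R) → Pos N) := fun p =>
    if Function.Injective p.2 then
      univ.filter (fun f : Fin n × Fin (2 * R) → Pos N =>
        Cop (f (p.1, p.2 0)) (f (p.1, p.2 1)) (f (p.1, p.2 2)) (f (p.1, p.2 3)))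
    else ∅ with hE
  have hsub : (univ.filter (fun f : Fin n × Fin (2 * R) → Pos N =>
      ∃ (i : Fin n) (τ : Fin 4 → Fin (2 * R)), Function.Injective τ ∧
        Cop (f (i, τ 0)) (f (i, τ 1)) (f (i, τ 2)) (f (i, τ 3)))) ⊆ univ.biUnion E := by
    intro f hf
    simp only [mem_filter, mem_univ, true_and] at hf
    obtain ⟨i, τ, h1, h2⟩ := hf
    simp only [mem_biUnion, mem_univ, true_and]
    refine ⟨(i, τ), ?_⟩
    simp only [hE]
    rw [if_pos h1]
    simpa using h2
  have hbound : ∀ p, ((E p).card : ℝ) * (N : ℝ) ^ 12 ≤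
      (N : ℝ) ^ 3 * (c * (N : ℝ) ^ 6 * Real.log N) * ((N : ℝ) ^ 3) ^ (n * (2 * R)) := by
    intro p
    simp only [hE]
    split_ifs with h
    · have h1 := hP1 (Fin n × Fin (2 * R)) (Pos N) 4
        (fun t => Cop (t 0) (t 1) (t 2) (t 3)) (fun j => (p.1, p.2 j))
        (fun a b hab => h (by simpa using hab))
      have hcI : Fintype.card (Fin n × Fin (2 * R)) = n * (2 * R) := by simp
      rw [card_Pos, hcI] at h1
      have h2 := card_cop4 hc
      have h3 : ((univ.filter (fun f : Fin n × Fin (2 * R) → Pos N =>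
        Cop (f (p.1, p.2 0)) (f (p.1, p.2 1)) (f (p.1, p.2 2)) (f (p.1, p.2 3)))).card : ℝ)
          * ((N : ℝ) ^ 3) ^ 4 =
          ((univ.filter (fun t : Fin 4 → Pos N => Cop (t 0) (t 1) (t 2) (t 3))).card : ℝ)
            * ((N : ℝ) ^ 3) ^ (n * (2 * R)) := by
        exact_mod_cast h1
      rw [← pow_mul] at h3
      norm_num at h3
      rw [h3]
      exact mul_le_mul_of_nonneg_right h2 (by positivity)
    · simp only [card_empty, Nat.cast_zero, zero_mul]
      have : 0 ≤ Real.log N := Real.log_nonneg (by exact_mod_cast hN)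
      positivity
  have hlog : 0 ≤ Real.log N := Real.log_nonneg (by exact_mod_cast hN)
  have h1 : ((univ.filter (fun f : Fin n × Fin (2 * R) → Pos N =>
      ∃ (i : Fin n) (τ : Fin 4 → Fin (2 * R)), Function.Injective τ ∧
        Cop (f (i, τ 0)) (f (i, τ 1)) (f (i, τ 2)) (f (i, τ 3)))).card : ℝ) * (N : ℝ) ^ 12
      ≤ (n * (2 * (R : ℝ)) ^ 4) *
        ((N : ℝ) ^ 3 * (c * (N : ℝ) ^ 6 * Real.log N) * ((N : ℝ) ^ 3) ^ (n * (2 * R))) := by
    refine (mul_le_mul_of_nonneg_right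
      (Nat.cast_le.2 ((card_le_card hsub).trans card_biUnion_le)) (by positivity)).trans ?_
    push_cast
    rw [Finset.sum_mul]
    refine (Finset.sum_le_sum (fun p _ => hbound p)).trans ?_
    rw [Finset.sum_const, nsmul_eq_mul, card_univ]
    refine le_of_eq ?_
    simp only [Fintype.card_prod, Fintype.card_fun, Fintype.card_fin]
    push_cast
    ring
  set b : ℝ := ((univ.filter (fun f : Fin n × Fin (2 * R) → Pos N =>
      ∃ (i : Fin n) (τ : Fin 4 → Fin (2 * R)), Function.Injective τ ∧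
        Cop (f (i, τ 0)) (f (i, τ 1)) (f (i, τ 2)) (f (i, τ 3)))).card : ℝ) with hb
  set Om : ℝ := ((N : ℝ) ^ 3) ^ (n * (2 * R)) with hOm
  have hOm0 : 0 < Om := by positivity
  have h2 : (16 * b) * (N : ℝ) ^ 12 ≤ Om * (N : ℝ) ^ 12 := by
    calc (16 * b) * (N : ℝ) ^ 12 = 16 * (b * (N : ℝ) ^ 12) := by ring
      _ ≤ 16 * ((n * (2 * (R : ℝ)) ^ 4) *
        ((N : ℝ) ^ 3 * (c * (N : ℝ) ^ 6 * Real.log N) * Om)) := by linarith
      _ = (16 * (n * (2 * (R : ℝ)) ^ 4) * (c * Real.log N)) * ((N : ℝ) ^ 9 * Om) := by ring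
      _ ≤ (N : ℝ) ^ 3 * ((N : ℝ) ^ 9 * Om) := mul_le_mul_of_nonneg_right hsm (by positivity)
      _ = Om * (N : ℝ) ^ 12 := by ring
  exact le_of_mul_le_mul_right h2 (by positivity)

end Pool.Agent.TH490
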