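import Mathlib

/-!
Definitions for the project MP_325b7c_co (three-dimensional grid drawings in volume O(kn)).
-/

set_option autoImplicit false

namespace Pool.Agent.TH490

noncomputable section

/-- integer vectors -/
abbrev V3 := Fin 3 → ℤ

/-- positions: points of the box `{0,…,N-1}^3` -/
abbrev Pos (N : ℕ) := Fin 3 → Fin N

/-- a position as an integer vector -/
def toZ {N : ℕ} (x : Pos N) : V3 := fun i => ((x i : ℕ) : ℤ)

/-- dot product -/
def dot (a b : V3) : ℤ := a 0 * b 0 + a 1 * b 1 + a 2 * b 2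

/-- cross product -/
def cr (a b : V3) : V3 :=
  ![a 1 * b 2 - a 2 * b 1, a 2 * b 0 - a 0 * b 2, a 0 * b 1 - a 1 * b 0]

/-- sup norm -/
def nrm (a : V3) : ℕ := max (a 0).natAbs (max (a 1).natAbs (a 2).natAbs)

/-- content: gcd of the three coordinates -/
def cont (a : V3) : ℕ := Nat.gcd (a 0).natAbs (Nat.gcd (a 1).natAbs (a 2).natAbs)

/-- primitive vector -/
def Prim (a : V3) : Prop := cont a = 1

instance : DecidablePred Prim := fun a => by unfold Prim; infer_instance

/-- sup norm of the primitive vector in direction `d` (it is `0` for `d = 0`) -/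
def Sn (d : V3) : ℕ := nrm d / cont d

/-- the cube `[-N,N]^3` -/
def cube (N : ℕ) : Finset V3 := Fintype.piFinset fun _ => Finset.Icc (-(N : ℤ)) N

/-- four positions are coplanar -/
def Cop {N : ℕ} (x y z w : Pos N) : Prop :=
  dot (cr (toZ y - toZ x) (toZ z - toZ x)) (toZ w - toZ x) = 0

/-- three positions are collinear -/
def Col {N : ℕ} (x y z : Pos N) : Prop := cr (toZ y - toZ x) (toZ z - toZ x) = 0

/-- `x, y` lie in a common plane with a primitive normal of norm at most `M` -/
def RS {N : ℕ} (M : ℕ) (x y : Pos N) : Prop :=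
  ∃ a : V3, Prim a ∧ nrm a ≤ M ∧ dot a (toZ y - toZ x) = 0

/-- `x, y, z, w` lie in a common plane with a primitive normal of norm at most `M` -/
def Tny {N : ℕ} (M : ℕ) (x y z w : Pos N) : Prop :=
  ∃ a : V3, Prim a ∧ nrm a ≤ M ∧ dot a (toZ y - toZ x) = 0 ∧ dot a (toZ z - toZ x) = 0 ∧
    dot a (toZ w - toZ x) = 0

/-- `x, y, z, w` are coplanar, `x, y, z` are not collinear, and the plane is not small -/
def LCop {N : ℕ} (M : ℕ) (x y z w : Pos N) : Prop :=
  Cop x y z w ∧ ¬ Col x y z ∧ ¬ Tny M x y z w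

end

end Pool.Agent.TH490
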