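import Mathlib

/-!
Definitions for the nibble theorem of the project MP_325b7c_co: a sequential weighted selection
process. Owners `0, 1, …, n-1` choose one item each, in this order.
-/

set_option autoImplicit false

namespace Pool.Agent.TH490

noncomputable section

open Finset Classical

/-- data of the selection problem: owners of items, blocks, tiny blocks, conflicts of a block -/
structure Nib (n : ℕ) (X ι : Type) where
  o : X → Fin n
  B : ι → Finset X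
  tiny : ι → Prop
  conf : ι → Finset (Finset X)

/-- a state of the process: owners with index `< t` have chosen `c`; weights `w`,
logarithms `L` of the compensation factors, accumulated block masses `LB` -/
structure NSt (n : ℕ) (X ι : Type) where
  t : ℕ
  c : Fin n → X
  w : X → ℝ
  L : X → ℝ
  LB : ι → ℝ

variable {n : ℕ} {X ι : Type} [Fintype X] [Fintype ι]

/-- the items of owner `t` -/
def lst (D : Nib n X ι) (t : ℕ) : Finset X := univ.filter (fun x => (D.o x : ℕ) = t)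

/-- `u` is the element of `e` with the largest owner -/
def topc (D : Nib n X ι) (u : X) (e : Finset X) : Prop :=
  u ∈ e ∧ ∀ v ∈ e, v ≠ u → D.o v < D.o u

/-- block-distance at most 2 -/
def near (D : Nib n X ι) (u z : X) : Prop :=
  ∃ (v : X) (β γ : ι), u ∈ D.B β ∧ v ∈ D.B β ∧ v ∈ D.B γ ∧ z ∈ D.B γ

/-- item `z` has been chosen -/
def chosen (D : Nib n X ι) (s : NSt n X ι) (z : X) : Prop :=
  (D.o z : ℕ) < s.t ∧ s.c (D.o z) = z

/-- normalised weight: `1` for a chosen item, `0` for a processed item which is not chosen,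
`16 w` for an unprocessed item -/
def hat (D : Nib n X ι) (s : NSt n X ι) (v : X) : ℝ :=
  if (D.o v : ℕ) < s.t then (if s.c (D.o v) = v then 1 else 0) else 16 * s.w v

/-- energy of the conflict `e` (in block `β`) as seen from `u` -/
def eng (D : Nib n X ι) (s : NSt n X ι) (β : ι) (e : Finset X) (u : X) : ℝ :=
  (if D.tiny β then 1 else Real.exp (-5 * s.LB β)) * ∏ v ∈ e.erase u, hat D s v

/-- energy of the non-tiny conflicts with top `u` -/
def FN (D : Nib n X ι) (s : NSt n X ι) (u : X) : ℝ :=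
  ∑ β ∈ univ.filter (fun β => ¬ D.tiny β), ∑ e ∈ (D.conf β).filter (fun e => topc D u e),
    eng D s β e u

/-- energy of the tiny conflicts with top `u` -/
def FT (D : Nib n X ι) (s : NSt n X ι) (u : X) : ℝ :=
  ∑ β ∈ univ.filter (fun β => D.tiny β), ∑ e ∈ (D.conf β).filter (fun e => topc D u e),
    eng D s β e u

/-- the control function; items with `GG ≥ 1` are killed -/
def GG (D : Nib n X ι) (R : ℕ) (s : NSt n X ι) (u : X) : ℝ :=
  (FN D s u + s.L u) / (Real.log R / 100) + FT D s u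

/-- probability of choosing `x` (for `x ∈ lst D s.t`) -/
def pr (D : Nib n X ι) (s : NSt n X ι) (x : X) : ℝ := s.w x / ∑ y ∈ lst D s.t, s.w y

/-- choosing `x` blocks `v` through a non-tiny block -/
def blkN (D : Nib n X ι) (s : NSt n X ι) (x v : X) : Prop :=
  ∃ β, ¬ D.tiny β ∧ ∃ e ∈ D.conf β, topc D v e ∧ x ∈ e ∧ x ≠ v ∧
    ∀ z ∈ e, z ≠ v → z ≠ x → chosen D s z

/-- choosing `x` blocks `v` through a tiny block -/
def blkT (D : Nib n X ι) (s : NSt n X ι) (x v : X) : Prop :=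
  ∃ β, D.tiny β ∧ ∃ e ∈ D.conf β, topc D v e ∧ x ∈ e ∧ x ≠ v ∧
    ∀ z ∈ e, z ≠ v → z ≠ x → chosen D s z

/-- choosing `x` blocks `v` -/
def blk (D : Nib n X ι) (s : NSt n X ι) (x v : X) : Prop := blkN D s x v ∨ blkT D s x v

/-- probability that `v` is blocked through a non-tiny block -/
def hN (D : Nib n X ι) (s : NSt n X ι) (v : X) : ℝ :=
  ∑ x ∈ (lst D s.t).filter (fun x => blkN D s x v), pr D s x

/-- probability that `v` is blocked through a tiny block -/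
def hT (D : Nib n X ι) (s : NSt n X ι) (v : X) : ℝ :=
  ∑ x ∈ (lst D s.t).filter (fun x => blkT D s x v), pr D s x

/-- probability that `v` is blocked -/
def hb (D : Nib n X ι) (s : NSt n X ι) (v : X) : ℝ :=
  ∑ x ∈ (lst D s.t).filter (fun x => blk D s x v), pr D s x

/-- probability that the chosen item lies in block `β` -/
def mB (D : Nib n X ι) (s : NSt n X ι) (β : ι) : ℝ :=
  ∑ x ∈ (lst D s.t).filter (fun x => x ∈ D.B β), pr D s x

/-- the state after owner `s.t` has chosen `x` (before killing) -/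
def stepS (D : Nib n X ι) (R : ℕ) (s : NSt n X ι) (x : X) : NSt n X ι where
  t := s.t + 1
  c := fun i => if (i : ℕ) = s.t then x else s.c i
  w := fun v => if blk D s x v then 0 else s.w v * (1 + (1 - 1 / Real.log R) * hN D s v)
  L := fun v => s.L v + Real.log (1 + (1 - 1 / Real.log R) * hN D s v)
  LB := fun β => s.LB β + mB D s β

/-- killing: items with `GG ≥ 1` get weight `0` -/
def kill (D : Nib n X ι) (R : ℕ) (s : NSt n X ι) : NSt n X ι where
  t := s.t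
  c := s.c
  w := fun v => if 1 ≤ GG D R s v then 0 else s.w v
  L := s.L
  LB := s.LB

/-- contribution of the item `u` to the functional `YY` -/
def yt (D : Nib n X ι) (R : ℕ) (s : NSt n X ι) (u : X) : ℝ := s.w u * max 0 (1 - GG D R s u)

/-- remaining total weight of owner `i` -/
def YY (D : Nib n X ι) (R : ℕ) (s : NSt n X ι) (i : ℕ) : ℝ := ∑ u ∈ lst D i, yt D R s u

/-- control of the mass of block `β` -/
def XX (D : Nib n X ι) (s : NSt n X ι) (β : ι) : ℝ :=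
  Real.exp (-s.LB β) * ∑ v ∈ (D.B β).filter (fun v => s.t ≤ (D.o v : ℕ)), s.w v
    + (1 / 4) * (1 - Real.exp (-s.LB β))

/-- static hypotheses -/
structure NHyp (D : Nib n X ι) (K R : ℕ) : Prop where
  conf_sub : ∀ β, ∀ e ∈ D.conf β, e ⊆ D.B β
  conf_card : ∀ β, ∀ e ∈ D.conf β, e.card = 4
  conf_inj : ∀ β, ∀ e ∈ D.conf β, Set.InjOn D.o (e : Set X)
  H1 : ∀ β γ, β ≠ γ → (D.B β ∩ D.B γ).card ≤ 1
  H2 : ∀ β x, x ∉ D.B β → ∀ v ∈ D.B β, ∀ v' ∈ D.B β, (∃ γ, x ∈ D.B γ ∧ v ∈ D.B γ) →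
    (∃ γ, x ∈ D.B γ ∧ v' ∈ D.B γ) → v = v'
  H3 : ∀ i t : ℕ, i ≠ t →
    ((lst D i).filter (fun u => ∃ z ∈ lst D t, near D u z)).card ≤ K
  H4l : ∀ i : Fin n, R ≤ (lst D i).card
  H4u : ∀ i : Fin n, (lst D i).card ≤ 2 * R
  H5 : ∀ β, ¬ D.tiny β → 40 * (D.B β).card ≤ R
  H6 : ∀ u, ((∑ β ∈ univ.filter (fun β => ¬ D.tiny β),
    ((D.conf β).filter (fun e => topc D u e)).card : ℕ) : ℝ)
      ≤ (1 / 3276800) * (R : ℝ) ^ 3 * Real.log R
  H7 : ∀ u, ((∑ β ∈ univ.filter (fun β => D.tiny β),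
    ((D.conf β).filter (fun e => topc D u e)).card : ℕ) : ℝ)
      ≤ (1 / 32768) * (R : ℝ) ^ 3
  H8 : (n : ℝ) + Fintype.card ι < Real.exp (Real.sqrt R / 40)
  H9 : ∀ β, ¬ D.tiny β → ∀ t : ℕ, ((D.B β) ∩ lst D t).card ≤ K

/-- dynamic invariants -/
structure NInv (D : Nib n X ι) (R : ℕ) (s : NSt n X ι) : Prop where
  w_nonneg : ∀ v, 0 ≤ s.w v
  L_nonneg : ∀ v, 0 ≤ s.L v
  LB_nonneg : ∀ β, 0 ≤ s.LB β
  w_le : ∀ v, s.t ≤ (D.o v : ℕ) → s.w v ≤ (R : ℝ) ^ (-(99 / 100) : ℝ)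
  w_eq : ∀ v, s.t ≤ (D.o v : ℕ) → s.w v ≠ 0 →
    s.w v = Real.exp (s.L v) / (lst D (D.o v : ℕ)).card
  G_lt : ∀ v, s.t ≤ (D.o v : ℕ) → s.w v ≠ 0 → GG D R s v < 1
  alive : ∀ v, s.t ≤ (D.o v : ℕ) → s.w v ≠ 0 → ∀ β, ∀ e ∈ D.conf β, topc D v e →
    ∃ z ∈ e, z ≠ v ∧ ¬ chosen D s z
  own : ∀ i : Fin n, (i : ℕ) < s.t → D.o (s.c i) = i
  free : ∀ β, ∀ e ∈ D.conf β, ∃ z ∈ e, ¬ chosen D s z
  Ylow : ∀ i : ℕ, i < n → s.t ≤ i → 1 / 2 < YY D R s i
  Xup : ∀ β, ¬ D.tiny β → XX D s β < 1 / 20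

/-! ### Statements -/

/-- the nibble theorem -/
def N_main : Prop := ∀ K : ℕ, ∃ R₀ : ℕ, ∀ R : ℕ, R₀ ≤ R →
  ∀ (n : ℕ) (X ι : Type) [Fintype X] [Fintype ι] (D : Nib n X ι), NHyp D K R →
    ∃ x : Fin n → X, (∀ i, D.o (x i) = i) ∧ ∀ β, ∀ e ∈ D.conf β, ∃ v ∈ e, x (D.o v) ≠ v

/-- one step, functional `YY`: expected increase dominates expected absolute change -/
def N_ystep : Prop := ∀ K : ℕ, ∃ R₀ : ℕ, ∀ R : ℕ, R₀ ≤ R →
  ∀ (n : ℕ) (X ι : Type) [Fintype X] [Fintype ι] (D : Nib n X ι), NHyp D K R →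
    ∀ s : NSt n X ι, NInv D R s → s.t < n → ∀ u : X, s.t < (D.o u : ℕ) →
    ∑ x ∈ lst D s.t, pr D s x * |yt D R (stepS D R s x) u - yt D R s u|
      ≤ 40 * Real.log R *
        ∑ x ∈ lst D s.t, pr D s x * (yt D R (stepS D R s x) u - yt D R s u)

/-- one step, functional `YY`: locality and boundedness of the change -/
def N_yloc : Prop := ∀ K : ℕ, ∃ R₀ : ℕ, ∀ R : ℕ, R₀ ≤ R →
  ∀ (n : ℕ) (X ι : Type) [Fintype X] [Fintype ι] (D : Nib n X ι), NHyp D K R →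
    ∀ s : NSt n X ι, NInv D R s → s.t < n → ∀ u : X, s.t < (D.o u : ℕ) →
    ∀ x ∈ lst D s.t,
      |yt D R (stepS D R s x) u - yt D R s u| ≤ 3 * (R : ℝ) ^ (-(99 / 100) : ℝ) ∧
      ((¬ ∃ z ∈ lst D s.t, near D u z) → yt D R (stepS D R s x) u = yt D R s u)

/-- one step, functional `XX` -/
def N_xstep : Prop := ∀ K : ℕ, ∃ R₀ : ℕ, ∀ R : ℕ, R₀ ≤ R →
  ∀ (n : ℕ) (X ι : Type) [Fintype X] [Fintype ι] (D : Nib n X ι), NHyp D K R →
    ∀ s : NSt n X ι, NInv D R s → s.t < n → ∀ β, ¬ D.tiny β →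
    ∃ d : X → ℝ, (∀ x ∈ lst D s.t, XX D (stepS D R s x) β - XX D s β ≤ d x) ∧
      (∀ x ∈ lst D s.t, |d x| ≤ (10 * K + 10) * (R : ℝ) ^ (-(99 / 100) : ℝ)) ∧
      ∑ x ∈ lst D s.t, pr D s x * |d x|
        ≤ 40 * Real.log R * ∑ x ∈ lst D s.t, pr D s x * (-d x)

end

end Pool.Agent.TH490
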