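import Pool.Agent.TH490.NDefs

/-!
Statements of the lemmas leading to `N_ystep` (file `NDefs`).
-/

set_option autoImplicit false

namespace Pool.Agent.TH490

noncomputable section

open Finset Classical

variable {n : ℕ} {X ι : Type} [Fintype X] [Fintype ι]

/-- total blocking probability of the unprocessed elements of `e` other than `u` -/
def Htot (D : Nib n X ι) (s : NSt n X ι) (e : Finset X) (u : X) : ℝ :=
  ∑ v ∈ (e.erase u).filter (fun v => s.t < (D.o v : ℕ)), hb D s v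

/-- conflicts with top `u` in block `β` having an element in the current list -/
def confA (D : Nib n X ι) (s : NSt n X ι) (β : ι) (u : X) : Finset (Finset X) :=
  (D.conf β).filter (fun e => topc D u e ∧ ∃ z ∈ e, (D.o z : ℕ) = s.t)

/-- conflicts with top `u` in block `β` having an element in the current list and whose two
other elements are processed -/
def confA0 (D : Nib n X ι) (s : NSt n X ι) (β : ι) (u : X) : Finset (Finset X) :=
  (D.conf β).filter (fun e => topc D u e ∧ ∃ z ∈ e, (D.o z : ℕ) = s.t ∧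
    ∀ v ∈ e, v ≠ u → v ≠ z → (D.o v : ℕ) < s.t)

/-- conflicts with top `u` in block `β` having no element in the current list -/
def confB (D : Nib n X ι) (s : NSt n X ι) (β : ι) (u : X) : Finset (Finset X) :=
  (D.conf β).filter (fun e => topc D u e ∧ ∀ z ∈ e, (D.o z : ℕ) ≠ s.t)

/-- conflicts of type B in a block which is not tiny -/
def N_Bnormal : Prop := ∀ K : ℕ, ∃ R₀ : ℕ, ∀ R : ℕ, R₀ ≤ R →
  ∀ (n : ℕ) (X ι : Type) [Fintype X] [Fintype ι] (D : Nib n X ι), NHyp D K R →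
    ∀ s : NSt n X ι, NInv D R s → s.t < n → ∀ u : X, s.t < (D.o u : ℕ) →
    ∀ β, ¬ D.tiny β → ∀ e ∈ confB D s β u,
    ∑ x ∈ (lst D s.t).filter (fun x => ¬ blk D s x u), pr D s x * eng D (stepS D R s x) β e u
        ≤ eng D s β e u * (1 - hb D s u + (hb D s u) ^ 2 / 2
            - (49 / 100) * (1 / Real.log R * Htot D s e u + 2 * mB D s β)) ∧
    ∑ x ∈ lst D s.t, pr D s x * |eng D (stepS D R s x) β e u - eng D s β e u|
        ≤ 3 * Real.log R * eng D s β e u * (1 / Real.log R * Htot D s e u + 2 * mB D s β)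

/-- conflicts of type B in a tiny block -/
def N_Btiny : Prop := ∀ K : ℕ, ∃ R₀ : ℕ, ∀ R : ℕ, R₀ ≤ R →
  ∀ (n : ℕ) (X ι : Type) [Fintype X] [Fintype ι] (D : Nib n X ι), NHyp D K R →
    ∀ s : NSt n X ι, NInv D R s → s.t < n → ∀ u : X, s.t < (D.o u : ℕ) →
    ∀ β, D.tiny β → ∀ e ∈ confB D s β u,
    ∑ x ∈ (lst D s.t).filter (fun x => ¬ blk D s x u), pr D s x * eng D (stepS D R s x) β e u
        ≤ eng D s β e u * (1 - hN D s u + (hN D s u) ^ 2 / 2
            - (1 / 10) * (1 / Real.log R * Htot D s e u)) ∧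
    ∑ x ∈ lst D s.t, pr D s x * |eng D (stepS D R s x) β e u - eng D s β e u|
        ≤ 3 * eng D s β e u * Htot D s e u

/-- conflicts of types A and A0, and elementary bounds -/
def N_A : Prop := ∀ K : ℕ, ∃ R₀ : ℕ, ∀ R : ℕ, R₀ ≤ R →
  ∀ (n : ℕ) (X ι : Type) [Fintype X] [Fintype ι] (D : Nib n X ι), NHyp D K R →
    ∀ s : NSt n X ι, NInv D R s → s.t < n → ∀ u : X, s.t < (D.o u : ℕ) →
    (∀ β, ∀ e ∈ confA D s β u,
      ∑ x ∈ lst D s.t, pr D s x * eng D (stepS D R s x) β e u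
        ≤ (13 / 100) * eng D s β e u) ∧
    (∀ β, ∀ e ∈ confA0 D s β u, ∀ x ∈ lst D s.t, ¬ blk D s x u →
      eng D (stepS D R s x) β e u = 0) ∧
    (262 / 100) * hN D s u ≤
      ∑ β ∈ univ.filter (fun β => ¬ D.tiny β), ∑ e ∈ confA0 D s β u, eng D s β e u ∧
    8 * hT D s u ≤
      ∑ β ∈ univ.filter (fun β => D.tiny β), ∑ e ∈ confA0 D s β u, eng D s β e u

/-- elementary bounds for one step -/
def N_elem : Prop := ∀ K : ℕ, ∃ R₀ : ℕ, ∀ R : ℕ, R₀ ≤ R →
  ∀ (n : ℕ) (X ι : Type) [Fintype X] [Fintype ι] (D : Nib n X ι), NHyp D K R →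
    ∀ s : NSt n X ι, NInv D R s → s.t < n →
    1 / 2 < ∑ y ∈ lst D s.t, s.w y ∧
    ∑ x ∈ lst D s.t, pr D s x = 1 ∧
    (∀ x ∈ lst D s.t, 0 ≤ pr D s x ∧ pr D s x ≤ 2 * s.w x ∧
      pr D s x ≤ 2 * (R : ℝ) ^ (-(99 / 100) : ℝ)) ∧
    (∀ v : X, s.t < (D.o v : ℕ) → 0 ≤ hN D s v ∧ hN D s v ≤ hb D s v ∧
      hT D s v ≤ hb D s v ∧ hb D s v ≤ hN D s v + hT D s v ∧
      hb D s v ≤ 2 * K * (R : ℝ) ^ (-(99 / 100) : ℝ)) ∧
    (∀ β, ¬ D.tiny β → 0 ≤ mB D s β ∧ mB D s β ≤ 2 * K * (R : ℝ) ^ (-(99 / 100) : ℝ)) ∧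
    (∀ β, ¬ D.tiny β → 4 / 5 < Real.exp (-s.LB β))

end

end Pool.Agent.TH490
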