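import Pool.Agent.TH490.StmP
import Pool.Agent.TH490.StmN

/-!
Statements: blocks of a pool, the two regimes, the final statement.
-/

set_option autoImplicit false

namespace Pool.Agent.TH490

noncomputable section

open Finset Classical

/-! ### Blocks of a pool -/

/-- the items outside `Z` in the plane `ν·x = e` -/
def inPlane {I : Type} [Fintype I] {N : ℕ} (f : I → Pos N) (Z : Finset I) (ν : V3) (e : ℤ) :
    Finset I :=
  univ.filter (fun x => x ∉ Z ∧ dot ν (toZ (f x)) = e)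

/-- blocks: at least four good items, all the good items of a plane -/
def Blk {I : Type} [Fintype I] {N : ℕ} (f : I → Pos N) (Z : Finset I) (S : Finset I) : Prop :=
  4 ≤ S.card ∧ ∃ (ν : V3) (e : ℤ), Prim ν ∧ S = inPlane f Z ν e

/-- tiny blocks: the normal has norm at most `M₀` -/
def BlkT {I : Type} [Fintype I] {N : ℕ} (M₀ : ℕ) (f : I → Pos N) (Z : Finset I)
    (S : Finset I) : Prop :=
  ∃ (ν : V3) (e : ℤ), Prim ν ∧ nrm ν ≤ M₀ ∧ S = inPlane f Z ν e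

/-- geometry of the blocks of a pool -/
def R_geo : Prop := ∀ (n : ℕ) (G : SimpleGraph (Fin n)) (N R M₀ : ℕ)
    (f : Fin n × Fin (2 * R) → Pos N) (Z : Finset (Fin n × Fin (2 * R))), 1 ≤ R →
    PoolP G N R M₀ f Z →
    -- good items have distinct positions, no three collinear
    (∀ x y, x ∉ Z → y ∉ Z → f x = f y → x = y) ∧
    (∀ x y z, x ∉ Z → y ∉ Z → z ∉ Z → x ≠ y → x ≠ z → y ≠ z → ¬ Col (f x) (f y) (f z)) ∧
    -- two blocks share at most one item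
    (∀ S S', Blk f Z S → Blk f Z S' → S ≠ S' → (S ∩ S').card ≤ 1) ∧
    -- no triangles
    (∀ S x v v', Blk f Z S → x ∉ Z → x ∉ S → v ∈ S → v' ∈ S →
      (∃ S₁, Blk f Z S₁ ∧ x ∈ S₁ ∧ v ∈ S₁) → (∃ S₂, Blk f Z S₂ ∧ x ∈ S₂ ∧ v' ∈ S₂) → v = v') ∧
    -- items of a block are related
    (∀ S u v, Blk f Z S → u ∈ S → v ∈ S → relf (R ^ 5) f u v) ∧
    -- blocks which are not tiny are small
    (∀ S, Blk f Z S → ¬ BlkT M₀ f Z S → 40 * S.card ≤ R) ∧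
    -- four items of a block are coplanar, in a tiny plane if the block is tiny
    (∀ S a b c d, Blk f Z S → a ∈ S → b ∈ S → c ∈ S → d ∈ S → Cop (f a) (f b) (f c) (f d)) ∧
    (∀ S a b c d, BlkT M₀ f Z S → a ∈ S → b ∈ S → c ∈ S → d ∈ S →
      Tny M₀ (f a) (f b) (f c) (f d)) ∧
    -- four coplanar good items lie in a block
    (∀ a b c d, a ∉ Z → b ∉ Z → c ∉ Z → d ∉ Z → a ≠ b → a ≠ c → a ≠ d → b ≠ c → b ≠ d →
      c ≠ d → Cop (f a) (f b) (f c) (f d) → ∃ S, Blk f Z S ∧ a ∈ S ∧ b ∈ S ∧ c ∈ S ∧ d ∈ S) ∧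
    -- number of blocks
    (univ.filter (fun S => Blk f Z S)).card ≤ N ^ 9

/-! ### The dense regime -/

def D_main : Prop := ∃ C₂ : ℝ, 0 < C₂ ∧ ∀ C : ℝ, C₂ ≤ C → ∃ N₂ : ℕ, ∀ N : ℕ, N₂ ≤ N →
    ∀ (n : ℕ) (G : SimpleGraph (Fin n)) (k : ℕ), G.edgeFinset.card = k → 1 ≤ k →
    (∀ v, ∃ w, G.Adj v w) → C * k * n ≤ (N : ℝ) ^ 3 → (N : ℝ) ^ 3 ≤ 2 * C * k * n →
    (n : ℝ) ^ 2 ≤ k * Real.log N ^ 3 → Realz N G

/-! ### The sparse regime -/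

/-- a version of the local lemma -/
def S_LLL : Prop := ∀ (J P E : Type) [Fintype J] [Fintype P] [Nonempty P] [Fintype E]
    (vbl : E → Finset J) (A : E → (J → P) → Prop),
    (∀ e, (vbl e).card ≤ 4) → (∀ e, (vbl e).Nonempty) →
    (∀ e f g, (∀ j ∈ vbl e, f j = g j) → A e f → A e g) →
    (∀ j, ∑ e ∈ univ.filter (fun e => j ∈ vbl e),
      ((univ.filter (fun f : J → P => A e f)).card : ℝ) / (Fintype.card P : ℝ) ^ Fintype.card J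
        ≤ 1 / 16) →
    ∃ f : J → P, ∀ e, ¬ A e f

/-- placement of the hubs -/
def S_hub : Prop := ∃ A c₀ : ℝ, 0 < A ∧ 0 < c₀ ∧ ∀ N : ℕ, 2 ≤ N → ∀ h : ℕ,
    (h : ℝ) ^ 3 * Real.log N ≤ c₀ * (N : ℝ) ^ 3 → ∃ Y : Fin h → Pos N, Function.Injective Y ∧
    (∀ i j l, i ≠ j → i ≠ l → j ≠ l → ¬ Col (Y i) (Y j) (Y l)) ∧
    (∀ i j l m, i ≠ j → i ≠ l → i ≠ m → j ≠ l → j ≠ m → l ≠ m →
      ¬ Cop (Y i) (Y j) (Y l) (Y m)) ∧
    (∑ t ∈ univ.filter (fun t : Fin h × Fin h => t.1 ≠ t.2),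
      ((univ.filter (fun z : Pos N × Pos N => Cop (Y t.1) (Y t.2) z.1 z.2)).card : ℝ)
        ≤ A * (h : ℝ) ^ 2 * (N : ℝ) ^ 3 * Real.log N) ∧
    (∑ t ∈ univ.filter (fun t : Fin h × Fin h × Fin h => t.1 ≠ t.2.1 ∧ t.1 ≠ t.2.2 ∧
        t.2.1 ≠ t.2.2),
      ((univ.filter (fun z : Pos N => Cop (Y t.1) (Y t.2.1) (Y t.2.2) z)).card : ℝ)
        ≤ A * (h : ℝ) ^ 3 * Real.log N)

def S_main : Prop := ∃ C₁ : ℝ, 0 < C₁ ∧ ∀ C : ℝ, C₁ ≤ C → ∃ N₁ : ℕ, ∀ N : ℕ, N₁ ≤ N →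
    ∀ (n : ℕ) (G : SimpleGraph (Fin n)) (k : ℕ), G.edgeFinset.card = k → 1 ≤ k →
    (∀ v, ∃ w, G.Adj v w) → C * k * n ≤ (N : ℝ) ^ 3 →
    k * Real.log N ^ 3 ≤ (n : ℝ) ^ 2 → Realz N G

/-! ### The final statement (that of S07985) -/

def F_final : Prop :=
    ∃ C : ℝ, ∀ (n : ℕ) (G : SimpleGraph (Fin n)),
      ∃ (f : Fin n → Fin 3 → ℤ) (b : Fin 3 → ℕ),
        (∀ v i, 0 ≤ f v i ∧ f v i < (b i : ℤ)) ∧
        Function.Injective f ∧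
        (∀ u v w : Fin n, G.Adj u v → w ≠ u → w ≠ v →
          (fun i => (f w i : ℝ)) ∉
            segment ℝ (fun i => (f u i : ℝ)) (fun i => (f v i : ℝ))) ∧
        (∀ u v x y : Fin n, G.Adj u v → G.Adj x y → s(u, v) ≠ s(x, y) →
          ∀ z ∈ segment ℝ (fun i => (f u i : ℝ)) (fun i => (f v i : ℝ)),
            z ∈ segment ℝ (fun i => (f x i : ℝ)) (fun i => (f y i : ℝ)) →
              (z = (fun i => (f u i : ℝ)) ∨ z = (fun i => (f v i : ℝ))) ∧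
              (z = (fun i => (f x i : ℝ)) ∨ z = (fun i => (f y i : ℝ)))) ∧
        ((∏ i, b i : ℕ) : ℝ) ≤ C * ((G.edgeSet.ncard : ℝ) + 1) * (n : ℝ)

end

end Pool.Agent.TH490
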