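import Pool.Agent.TH490.Defs

/-!
Statements (as propositions) of the geometric counting lemmas of the project.
-/

set_option autoImplicit false

namespace Pool.Agent.TH490

noncomputable section

open Finset Classical

/-! ### G1: lattice points in planes -/

def G1_plane : Prop := ∀ (N : ℕ) (a : V3), Prim a →
    (∃ u ∈ cube N, ∃ v ∈ cube N, dot a u = 0 ∧ dot a v = 0 ∧ cr u v ≠ 0) →
    ((cube N).filter (fun x => dot a x = 0)).card * nrm a ≤ 18 * N ^ 2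

def G1_pos : Prop := ∀ (N : ℕ) (a : V3), Prim a → ∀ x y z : Pos N,
    dot a (toZ y - toZ x) = 0 → dot a (toZ z - toZ x) = 0 → ¬ Col x y z →
    (univ.filter (fun w : Pos N => dot a (toZ w - toZ x) = 0)).card * nrm a ≤ 18 * N ^ 2

def G1_possmall : Prop := ∀ (N : ℕ) (a : V3), Prim a → nrm a ≤ N → ∀ x : Pos N,
    (univ.filter (fun w : Pos N => dot a (toZ w - toZ x) = 0)).card * nrm a ≤ 18 * N ^ 2

def G1_span : Prop := ∀ (N : ℕ) (a : V3), Prim a → ∀ x y z : Pos N,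
    dot a (toZ y - toZ x) = 0 → dot a (toZ z - toZ x) = 0 → ¬ Col x y z → nrm a ≤ 2 * N ^ 2

def G1_perp : Prop := ∀ (d : V3), d ≠ 0 → ∀ M : ℕ,
    ((cube M).filter (fun a => Prim a ∧ dot a d = 0)).card * Sn d ≤ 2 * Sn d + 12 * M ^ 2

def G1_perpoff : Prop := ∀ (d : V3), d ≠ 0 → ∀ (M : ℕ) (a₀ : V3), Prim a₀ → nrm a₀ ≤ M →
    dot a₀ d = 0 →
    ((cube M).filter (fun a => Prim a ∧ dot a d = 0 ∧ cr a a₀ ≠ 0)).card * Sn d ≤ 12 * M ^ 2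

/-! ### G2: sums over directions, elementary counts -/

def G2_sum : Prop := ∀ N : ℕ,
    ∑ d ∈ (cube N).filter (fun d => d ≠ 0), (1 : ℝ) / Sn d ≤ 26 * (N : ℝ) ^ 2

def G2_card : Prop := ∀ N s : ℕ,
    ((cube N).filter (fun d => d ≠ 0 ∧ Sn d ≤ s)).card ≤ 26 * N * s ^ 2

def G2_slice : Prop := ∃ c : ℝ, 0 < c ∧ ∀ N : ℕ, 2 ≤ N → ∀ a : V3, a ≠ 0 → ∀ e : ℤ,
    ∑ d ∈ (cube N).filter (fun d => d ≠ 0 ∧ dot a d = e), (1 : ℝ) / Sn d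
      ≤ c * N * Real.log N

def G2_line : Prop := ∀ (N : ℕ) (x y : Pos N), x ≠ y →
    (univ.filter (fun z : Pos N => Col x y z)).card ≤ N

def G2_twoplane : Prop := ∀ (N : ℕ) (a b : V3), cr a b ≠ 0 → ∀ e f : ℤ,
    (univ.filter (fun z : Pos N => dot a (toZ z) = e ∧ dot b (toZ z) = f)).card ≤ N

def G2_oneplane : Prop := ∀ (N : ℕ) (a : V3), a ≠ 0 → ∀ e : ℤ,
    (univ.filter (fun z : Pos N => dot a (toZ z) = e)).card ≤ N ^ 2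

def G2_col : Prop := ∃ c : ℝ, 0 < c ∧ ∀ N : ℕ, ∀ y : Pos N,
    ((univ.filter (fun t : Pos N × Pos N => Col y t.1 t.2)).card : ℝ) ≤ c * (N : ℝ) ^ 3

/-! ### G3: coplanar quadruples -/

def G3_cop : Prop := ∃ c : ℝ, 0 < c ∧ ∀ N : ℕ, 2 ≤ N → ∀ y : Pos N,
    ((univ.filter (fun t : Pos N × Pos N × Pos N => Cop y t.1 t.2.1 t.2.2)).card : ℝ)
      ≤ c * (N : ℝ) ^ 6 * Real.log N

def G3_tiny : Prop := ∃ c : ℝ, 0 < c ∧ ∀ N : ℕ, 1 ≤ N → ∀ M : ℕ, 1 ≤ M → M ≤ N →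
    ∀ y : Pos N,
    ((univ.filter (fun t : Pos N × Pos N × Pos N => Tny M y t.1 t.2.1 t.2.2)).card : ℝ)
      ≤ c * (N : ℝ) ^ 6 * (1 + Real.log M)

def G3_rs : Prop := ∃ c : ℝ, 0 < c ∧ ∀ N : ℕ, 1 ≤ N → ∀ M : ℕ, 1 ≤ M → M ≤ N → ∀ y : Pos N,
    ((univ.filter (fun z : Pos N => RS M y z)).card : ℝ) ≤ c * (M : ℝ) ^ 2 * (N : ℝ) ^ 2

/-! ### G4: completions of a pair to a coplanar quadruple in a plane which is not small -/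

/-- number of completions of the pair `x, y` to a coplanar quadruple whose plane is not small -/
def gL {N : ℕ} (M : ℕ) (x y : Pos N) : ℕ :=
  (univ.filter (fun t : Pos N × Pos N => LCop M x y t.1 t.2)).card

def G4_symm : Prop := ∀ (N M : ℕ) (x y : Pos N), gL M x y = gL M y x

def G4_sup : Prop := ∃ c : ℝ, 0 < c ∧ ∀ N : ℕ, 2 ≤ N → ∀ M : ℕ, 1 ≤ M → ∀ x y : Pos N, x ≠ y →
    (gL M x y : ℝ) ≤ c * (N : ℝ) ^ 4 * (1 / (M : ℝ) ^ 2 + Real.log N / Sn (toZ y - toZ x))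

def G4_supRS : Prop := ∃ c : ℝ, 0 < c ∧ ∀ N : ℕ, 2 ≤ N → ∀ M : ℕ, 1 ≤ M → ∀ x y : Pos N,
    x ≠ y → RS M x y →
    (gL M x y : ℝ) ≤ c * (N : ℝ) ^ 4 * (Real.log N / Sn (toZ y - toZ x))

def G4_L1 : Prop := ∃ c : ℝ, 0 < c ∧ ∀ N : ℕ, 2 ≤ N → ∀ M : ℕ, ∀ x : Pos N,
    ∑ y : Pos N, (gL M x y : ℝ) ≤ c * (N : ℝ) ^ 6 * Real.log N

def G4_L2 : Prop := ∃ c : ℝ, 0 < c ∧ ∀ N : ℕ, 2 ≤ N → ∀ M : ℕ, 1 ≤ M → M ^ 6 ≤ N →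
    ∀ x : Pos N,
    ∑ y : Pos N, (gL M x y : ℝ) ^ 2 ≤ c * (N : ℝ) ^ 10 * Real.log N ^ 2 / (M : ℝ) ^ 2

def G4_RS : Prop := ∃ c : ℝ, 0 < c ∧ ∀ N : ℕ, 2 ≤ N → ∀ M : ℕ, 1 ≤ M → ∀ x : Pos N,
    ∑ y ∈ univ.filter (fun y : Pos N => RS M x y), (gL M x y : ℝ)
      ≤ c * (M : ℝ) ^ 3 * (N : ℝ) ^ 5 * Real.log N ^ 2

def G4_slice : Prop := ∃ c : ℝ, 0 < c ∧ ∀ N : ℕ, 2 ≤ N → ∀ M : ℕ, 1 ≤ M → ∀ a : V3,
    Prim a → nrm a ≤ M → ∀ (e : ℤ) (x : Pos N),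
    ∑ y ∈ univ.filter (fun y : Pos N => dot a (toZ y) = e), (gL M x y : ℝ)
      ≤ c * (N : ℝ) ^ 5 * Real.sqrt N * Real.log N ^ 2

/-! ### G5: counts of bad tuples of positions -/

/-- a pair in two planes that are not small -/
def TLL {N : ℕ} (M : ℕ) (t : Fin 6 → Pos N) : Prop :=
  LCop M (t 0) (t 1) (t 2) (t 3) ∧ LCop M (t 0) (t 1) (t 4) (t 5)

/-- a pair in a small plane and in a plane that is not small -/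
def TLS {N : ℕ} (M : ℕ) (t : Fin 4 → Pos N) : Prop :=
  LCop M (t 0) (t 1) (t 2) (t 3) ∧ RS M (t 0) (t 1)

/-- a pair in two small planes -/
def TSS {N : ℕ} (M : ℕ) (t : Fin 2 → Pos N) : Prop :=
  t 0 ≠ t 1 ∧ ∃ a b : V3, nrm a ≤ M ∧ nrm b ≤ M ∧ cr a b ≠ 0 ∧
    dot a (toZ (t 1) - toZ (t 0)) = 0 ∧ dot b (toZ (t 1) - toZ (t 0)) = 0

/-- triangle of three small planes -/
def TSSS {N : ℕ} (M : ℕ) (t : Fin 3 → Pos N) : Prop :=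
  ∃ a b c : V3, nrm a ≤ M ∧ nrm b ≤ M ∧ nrm c ≤ M ∧ a ≠ 0 ∧ cr b c ≠ 0 ∧
    dot a (toZ (t 1) - toZ (t 0)) = 0 ∧ dot b (toZ (t 2) - toZ (t 0)) = 0 ∧
    dot c (toZ (t 2) - toZ (t 1)) = 0

/-- triangle of one large and two small planes -/
def TLSS {N : ℕ} (M : ℕ) (t : Fin 5 → Pos N) : Prop :=
  LCop M (t 0) (t 1) (t 2) (t 3) ∧
    ∃ a b : V3, nrm a ≤ M ∧ nrm b ≤ M ∧ cr a b ≠ 0 ∧ dot a (toZ (t 4) - toZ (t 0)) = 0 ∧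
      dot b (toZ (t 4) - toZ (t 1)) = 0

/-- triangle of two large planes and one small plane -/
def TLLS {N : ℕ} (M : ℕ) (t : Fin 7 → Pos N) : Prop :=
  LCop M (t 0) (t 1) (t 2) (t 3) ∧ LCop M (t 0) (t 4) (t 5) (t 6) ∧ RS M (t 1) (t 4)

/-- triangle of three large planes -/
def TLLL {N : ℕ} (M : ℕ) (t : Fin 9 → Pos N) : Prop :=
  LCop M (t 0) (t 1) (t 2) (t 3) ∧ LCop M (t 0) (t 4) (t 5) (t 6) ∧
    LCop M (t 1) (t 4) (t 7) (t 8)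

def G5_LL : Prop := ∃ c : ℝ, 0 < c ∧ ∀ N : ℕ, 2 ≤ N → ∀ M : ℕ, 1 ≤ M → M ^ 6 ≤ N →
    ((univ.filter (fun t : Fin 6 → Pos N => TLL M t)).card : ℝ)
      ≤ c * (N : ℝ) ^ 13 * Real.log N ^ 2 / (M : ℝ) ^ 2

def G5_LS : Prop := ∃ c : ℝ, 0 < c ∧ ∀ N : ℕ, 2 ≤ N → ∀ M : ℕ, 1 ≤ M →
    ((univ.filter (fun t : Fin 4 → Pos N => TLS M t)).card : ℝ)
      ≤ c * (M : ℝ) ^ 3 * (N : ℝ) ^ 8 * Real.log N ^ 2

def G5_SS : Prop := ∀ N : ℕ, 1 ≤ N → ∀ M : ℕ, 1 ≤ M →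
    ((univ.filter (fun t : Fin 2 → Pos N => TSS M t)).card : ℝ)
      ≤ 729 * (M : ℝ) ^ 6 * (N : ℝ) ^ 4

def G5_SSS : Prop := ∀ N : ℕ, 1 ≤ N → ∀ M : ℕ, 1 ≤ M →
    ((univ.filter (fun t : Fin 3 → Pos N => TSSS M t)).card : ℝ)
      ≤ 19683 * (M : ℝ) ^ 9 * (N : ℝ) ^ 6

def G5_LSS : Prop := ∃ c : ℝ, 0 < c ∧ ∀ N : ℕ, 2 ≤ N → ∀ M : ℕ, 1 ≤ M →
    ((univ.filter (fun t : Fin 5 → Pos N => TLSS M t)).card : ℝ)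
      ≤ c * (M : ℝ) ^ 6 * (N : ℝ) ^ 10 * Real.log N

def G5_LLS : Prop := ∃ c : ℝ, 0 < c ∧ ∀ N : ℕ, 2 ≤ N → ∀ M : ℕ, 1 ≤ M →
    ((univ.filter (fun t : Fin 7 → Pos N => TLLS M t)).card : ℝ)
      ≤ c * (M : ℝ) ^ 3 * (N : ℝ) ^ 14 * Real.sqrt N * Real.log N ^ 3

def G5_LLL : Prop := ∃ c : ℝ, 0 < c ∧ ∀ N : ℕ, 2 ≤ N → ∀ M : ℕ, 1 ≤ M → M ^ 6 ≤ N →
    ((univ.filter (fun t : Fin 9 → Pos N => TLLL M t)).card : ℝ)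
      ≤ c * (N : ℝ) ^ 19 * Real.log N ^ 3 / (M : ℝ) ^ 2

end

end Pool.Agent.TH490
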