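import Pool.Agent.TH490.StmG

/-!
Statements of the probabilistic (counting) lemmas of the project, and of the pool theorem.
-/

set_option autoImplicit false

namespace Pool.Agent.TH490

noncomputable section

open Finset Classical

/-! ### P1: tuples -/

/-- points which are members of an injective tuple whose image under `f` satisfies `T` -/
def BadTup {I P : Type} [Fintype I] (q : ℕ) (T : (Fin q → P) → Prop) (f : I → P) : Finset I :=
  univ.filter (fun x => ∃ τ : Fin q → I, Function.Injective τ ∧ (∃ j, τ j = x) ∧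
    T (fun j => f (τ j)))

/-- one injective tuple of indices -/
def P1_one : Prop := ∀ (I P : Type) [Fintype I] [DecidableEq I] [Fintype P] [Nonempty P] (q : ℕ)
    (T : (Fin q → P) → Prop) (τ : Fin q → I), Function.Injective τ →
    (univ.filter (fun f : I → P => T (fun j => f (τ j)))).card * Fintype.card P ^ q
      = (univ.filter (fun t : Fin q → P => T t)).card * Fintype.card P ^ Fintype.card I

/-- expected number of bad points -/
def P1_bad : Prop := ∀ (I P : Type) [Fintype I] [DecidableEq I] [Fintype P] [Nonempty P] (q : ℕ)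
    (T : (Fin q → P) → Prop),
    (∑ f : I → P, (BadTup q T f).card) * Fintype.card P ^ q
      ≤ q * Fintype.card I ^ q * (univ.filter (fun t : Fin q → P => T t)).card
          * Fintype.card P ^ Fintype.card I

/-! ### P2: random permutations -/

/-- a small set does not fill a quarter of a list -/
def P2_bad : Prop := ∀ (n r : ℕ) (B : Finset (Fin n × Fin r)) (ε : ℝ), 0 ≤ ε → ε ≤ 1 →
    (B.card : ℝ) ≤ ε * (n * r) →
    ((univ.filter (fun π : Equiv.Perm (Fin n × Fin r) =>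
      ∃ i, r < 4 * (univ.filter (fun s : Fin r => π (i, s) ∈ B)).card)).card : ℝ)
      ≤ n * 2 ^ r * ε ^ ((r : ℝ) / 4) * (n * r).factorial

/-- a sparse relation has few pairs between two lists -/
def P2_near : Prop := ∀ (n r Q : ℕ) (W : Fin n × Fin r → Fin n × Fin r → Prop),
    (∀ x y, W x y → W y x) → (∀ x, (univ.filter (fun y => W x y)).card ≤ Q) →
    1 ≤ Q → 1 ≤ r → (4 * Q * r) ^ 2 ≤ n →
    32 * (univ.filter (fun π : Equiv.Perm (Fin n × Fin r) => ∃ i t, i ≠ t ∧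
      30 < (univ.filter (fun s : Fin r => ∃ s' : Fin r, W (π (i, s)) (π (t, s')))).card)).card
      ≤ (n * r).factorial

/-- from permutations to functions -/
def P2_double : Prop := ∀ (I P : Type) [Fintype I] [DecidableEq I] [Fintype P]
    (A F : (I → P) → Prop) (δ : ℝ), 0 ≤ δ →
    (∀ f, A f → ((univ.filter (fun π : Equiv.Perm I => F (f ∘ π))).card : ℝ)
      ≤ δ * (Fintype.card I).factorial) →
    (∀ f (π : Equiv.Perm I), A f → A (f ∘ π)) →
    ((univ.filter (fun f : I → P => A f ∧ F f)).card : ℝ)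
      ≤ δ * (Fintype.card P : ℝ) ^ Fintype.card I

/-! ### P3: two-level Markov argument -/

/-- the number of triples of items, outside `Z`, forming with `u` a potential conflict -/
def trip {n r : ℕ} {P : Type} (G : SimpleGraph (Fin n)) (W : P → P → P → P → Prop)
    (f : Fin n × Fin r → P) (Z : Finset (Fin n × Fin r)) (u : Fin n × Fin r) :
    Finset ((Fin n × Fin r) × (Fin n × Fin r) × (Fin n × Fin r)) :=
  univ.filter (fun t => t.1 ∉ Z ∧ t.2.1 ∉ Z ∧ t.2.2 ∉ Z ∧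
    t.1.1 < u.1 ∧ G.Adj u.1 t.1.1 ∧ G.Adj t.2.1.1 t.2.2.1 ∧
    t.2.1.1 ≠ u.1 ∧ t.2.1.1 ≠ t.1.1 ∧ t.2.2.1 ≠ u.1 ∧ t.2.2.1 ≠ t.1.1 ∧
    W (f u) (f t.1) (f t.2.1) (f t.2.2))

def P3_two : Prop := ∀ (n r : ℕ) (P : Type) [Fintype P] [Nonempty P] (G : SimpleGraph (Fin n))
    (W : P → P → P → P → Prop) (T : ℝ) (D k : ℕ),
    (∀ y, ((univ.filter (fun t : P × P × P => W y t.1 t.2.1 t.2.2)).card : ℝ) ≤ T) →
    (∀ i : Fin n, (univ.filter (fun j : Fin n => j < i ∧ G.Adj i j)).card ≤ D) →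
    G.edgeFinset.card ≤ k → (32 : ℝ) * n ≤ 2 ^ ((r : ℝ) / 4) →
    8 * (univ.filter (fun f : Fin n × Fin r → P =>
      ¬ ∃ Z : Finset (Fin n × Fin r),
        (∀ i, 8 * (univ.filter (fun s : Fin r => (i, s) ∈ Z)).card ≤ r) ∧
        ∀ u, u ∉ Z → ((trip G W f Z u).card : ℝ)
          ≤ 2 ^ 25 * D * k * T * (r : ℝ) ^ 3 / (Fintype.card P : ℝ) ^ 3)).card
      ≤ Fintype.card P ^ (n * r)

/-! ### P4: large deviations -/

def P4_dev : Prop := ∀ (I P : Type) [Fintype I] [DecidableEq I] [Fintype P] [Nonempty P]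
    (A : Finset P) (t : ℕ), 1 ≤ t →
    ((univ.filter (fun f : I → P => t ≤ (univ.filter (fun x => f x ∈ A)).card)).card : ℝ)
      ≤ (3 * Fintype.card I * A.card / (t * Fintype.card P)) ^ t
          * (Fintype.card P : ℝ) ^ Fintype.card I

/-! ### Bad sets of an array of positions -/

/-- related items: equal, in a common small plane, or in a common large plane with two others -/
def relf {I : Type} {N : ℕ} (M : ℕ) (f : I → Pos N) (u v : I) : Prop :=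
  u = v ∨ RS M (f u) (f v) ∨
    ∃ a b : I, a ≠ u ∧ a ≠ v ∧ b ≠ u ∧ b ≠ v ∧ a ≠ b ∧ LCop M (f u) (f v) (f a) (f b)

/-- items related to more than `Q` items -/
def BadDeg {I : Type} [Fintype I] {N : ℕ} (M Q : ℕ) (f : I → Pos N) : Finset I :=
  univ.filter (fun u => Q < (univ.filter (fun v => relf M f u v)).card)

/-- geometrically bad items -/
def Zg {I : Type} [Fintype I] {N : ℕ} (M Q : ℕ) (f : I → Pos N) : Finset I :=
  BadTup 2 (fun t => t 0 = t 1) f ∪ BadTup 3 (fun t => Col (t 0) (t 1) (t 2)) f ∪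
  BadTup 6 (TLL M) f ∪ BadTup 4 (TLS M) f ∪ BadTup 2 (TSS M) f ∪ BadTup 3 (TSSS M) f ∪
  BadTup 5 (TLSS M) f ∪ BadTup 7 (TLLS M) f ∪ BadTup 9 (TLLL M) f ∪ BadDeg M Q f

/-- the expected number of geometrically bad items is small -/
def D_badgeo : Prop := ∃ N₀ : ℕ, ∀ N : ℕ, N₀ ≤ N → ∀ R : ℕ, R ^ 100 ≤ N → N < (R + 1) ^ 100 →
    ∀ n : ℕ, 1 ≤ n → (n : ℝ) ≤ N * Real.log N →
    ∑ f : Fin n × Fin (2 * R) → Pos N, ((Zg (R ^ 5) (R ^ 12) f).card : ℝ)
      ≤ (1 / 1024) * (n * (2 * R)) * ((N : ℝ) ^ 3) ^ (n * (2 * R))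

/-- block-distance at most two outside `Z` -/
def nearf {I : Type} {N : ℕ} (M : ℕ) (Z : Finset I) (f : I → Pos N) (u z : I) : Prop :=
  u ∉ Z ∧ z ∉ Z ∧ ∃ v, v ∉ Z ∧ relf M f u v ∧ relf M f v z

/-- the properties of the pool -/
structure PoolP {n : ℕ} (G : SimpleGraph (Fin n)) (N R M₀ : ℕ)
    (f : Fin n × Fin (2 * R) → Pos N) (Z : Finset (Fin n × Fin (2 * R))) : Prop where
  size : ∀ i, (univ.filter (fun s : Fin (2 * R) => (i, s) ∈ Z)).card ≤ R
  geo : Zg (R ^ 5) (R ^ 12) f ⊆ Z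
  near : ∀ i t, i ≠ t → (univ.filter (fun s : Fin (2 * R) =>
    ∃ s' : Fin (2 * R), nearf (R ^ 5) Z f (i, s) (t, s'))).card ≤ 30
  cop4 : ∀ (i : Fin n) (τ : Fin 4 → Fin (2 * R)), Function.Injective τ →
    ¬ Cop (f (i, τ 0)) (f (i, τ 1)) (f (i, τ 2)) (f (i, τ 3))
  rich : ∀ a : V3, Prim a → M₀ < nrm a → ∀ x y z : Pos N,
    dot a (toZ y - toZ x) = 0 → dot a (toZ z - toZ x) = 0 → ¬ Col x y z →
    40 * (univ.filter (fun w : Fin n × Fin (2 * R) => dot a (toZ (f w) - toZ x) = 0)).card ≤ R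
  deg : ∀ u, u ∉ Z → ((trip G Cop f Z u).card : ℝ) ≤ (1 / 3276800) * (R : ℝ) ^ 3 * Real.log R
  tny : ∀ u, u ∉ Z → ((trip G (Tny M₀) f Z u).card : ℝ) ≤ (1 / 32768) * (R : ℝ) ^ 3

/-- the pool theorem -/
def D_pool : Prop := ∃ C₂ : ℝ, 0 < C₂ ∧ ∀ C : ℝ, C₂ ≤ C → ∀ R₀ : ℕ, ∃ N₂ : ℕ, ∀ N : ℕ, N₂ ≤ N →
    ∀ (n : ℕ) (G : SimpleGraph (Fin n)) (k D : ℕ), G.edgeFinset.card = k → 1 ≤ k → n ≤ 2 * k →
    (∀ i : Fin n, (univ.filter (fun j : Fin n => j < i ∧ G.Adj i j)).card ≤ D) →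
    D ^ 2 ≤ 2 * k → C * k * n ≤ (N : ℝ) ^ 3 → (N : ℝ) ^ 3 ≤ 2 * C * k * n →
    (n : ℝ) ^ 2 ≤ k * Real.log N ^ 3 →
    ∃ R : ℕ, R₀ ≤ R ∧ R ^ 100 ≤ N ∧ N < (R + 1) ^ 100 ∧ ∃ (M₀ : ℕ)
      (f : Fin n × Fin (2 * R) → Pos N) (Z : Finset (Fin n × Fin (2 * R))),
      PoolP G N R M₀ f Z

/-- realizability of a graph in the box -/
def Realz {n : ℕ} (N : ℕ) (G : SimpleGraph (Fin n)) : Prop :=
  ∃ p : Fin n → Pos N, Function.Injective p ∧
    (∀ u v w, G.Adj u v → w ≠ u → w ≠ v → ¬ Col (p u) (p v) (p w)) ∧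
    (∀ u v x y, G.Adj u v → G.Adj x y → x ≠ u → x ≠ v → y ≠ u → y ≠ v →
      ¬ Cop (p u) (p v) (p x) (p y))

/-- a pool gives a realization -/
def D_real : Prop := ∃ R₀ : ℕ, ∀ (n : ℕ) (G : SimpleGraph (Fin n)) (N R M₀ : ℕ)
    (f : Fin n × Fin (2 * R) → Pos N) (Z : Finset (Fin n × Fin (2 * R))),
    R₀ ≤ R → R ^ 100 ≤ N → N < (R + 1) ^ 100 → PoolP G N R M₀ f Z → Realz N G

end

end Pool.Agent.TH490
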